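import Pool.Agent.Helper72_TT.Defs

set_option autoImplicit false

namespace Pool.Agent.Helper72_TT



private theorem glue (f : ℝ → ℝ) (x : ℝ) (hx : 0 ≤ x)
    (h1 : ∀ D D', 0 ≤ D → D ≤ D' → 9 * D' ≤ x → f D ≤ f D')
    (h2 : ∀ D D', 0 ≤ D → x ≤ 9 * D → D ≤ D' → D' ≤ x → f D ≤ f D')
    (h3 : ∀ D D', x ≤ D → D ≤ D' → f D ≤ f D') :
    ∀ D D', 0 ≤ D → D ≤ D' → f D ≤ f D' := by
  have h23 : ∀ D D', 0 ≤ D → x ≤ 9 * D → D ≤ D' → f D ≤ f D' := by
    intro D D' h0 ha hD
    by_cases hb : x ≤ D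
    · exact h3 D D' hb hD
    · push Not at hb
      by_cases hc : D' ≤ x
      · exact h2 D D' h0 ha hD hc
      · push Not at hc
        exact (h2 D x h0 ha hb.le le_rfl).trans (h3 x D' le_rfl hc.le)
  intro D D' h0 hD
  by_cases ha : x ≤ 9 * D
  · exact h23 D D' h0 ha hD
  · push Not at ha
    by_cases hb : 9 * D' ≤ x
    · exact h1 D D' h0 hD hb
    · push Not at hb
      refine (h1 D (x / 9) h0 (by linarith) (by linarith)).trans ?_
      exact h23 (x / 9) D' (by linarith) (by linarith) (by linarith)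

/-- `k` is increasing in `D`, and so is `K` (e.g. split into the cases `x ≤ D`, `D ≤ x ≤ 9D`,
`9D ≤ x`, or for `K` use that `K D 0 = 0` and the derivative in `x` is `k`). -/
theorem k_mono {D D' x : ℝ} (h0 : 0 ≤ D) (h : D ≤ D') (hx : 0 ≤ x) : k D x ≤ k D' x := by
  refine glue (fun D => k D x) x hx ?_ ?_ ?_ D D' h0 h
  · intro D D' h0 h h9
    simp only [k]
    rw [max_eq_left (by linarith : (0:ℝ) ≤ x - D), max_eq_left (by linarith : (0:ℝ) ≤ x - 9 * D),
      max_eq_left (by linarith : (0:ℝ) ≤ x - D'), max_eq_left (by linarith : (0:ℝ) ≤ x - 9 * D')]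
    nlinarith
  · intro D D' h0 h9 h hx'
    simp only [k]
    rw [max_eq_left (by linarith : (0:ℝ) ≤ x - D), max_eq_right (by linarith : x - 9 * D ≤ (0:ℝ)),
      max_eq_left (by linarith : (0:ℝ) ≤ x - D'), max_eq_right (by linarith : x - 9 * D' ≤ (0:ℝ))]
    nlinarith [mul_nonneg (sub_nonneg.2 h) (by linarith : (0:ℝ) ≤ 9 * D - x),
      mul_nonneg (sub_nonneg.2 h) (by linarith : (0:ℝ) ≤ 9 * D' - x)]
  · intro D D' h0' h
    simp only [k]
    rw [max_eq_right (by linarith : x - D ≤ (0:ℝ)), max_eq_right (by linarith : x - 9 * D ≤ (0:ℝ)),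
      max_eq_right (by linarith : x - D' ≤ (0:ℝ)), max_eq_right (by linarith : x - 9 * D' ≤ (0:ℝ))]
    nlinarith [mul_nonneg (sub_nonneg.2 h) hx]

theorem K_mono {D D' x : ℝ} (h0 : 0 ≤ D) (h : D ≤ D') (hx : 0 ≤ x) : K D x ≤ K D' x := by
  refine glue (fun D => K D x) x hx ?_ ?_ ?_ D D' h0 h
  · intro D D' h0 h h9
    simp only [K]
    rw [max_eq_left (by linarith : (0:ℝ) ≤ x - D), max_eq_left (by linarith : (0:ℝ) ≤ x - 9 * D),
      max_eq_left (by linarith : (0:ℝ) ≤ x - D'), max_eq_left (by linarith : (0:ℝ) ≤ x - 9 * D')]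
    have h3 : D ^ 3 ≤ D' ^ 3 := pow_le_pow_left₀ h0 h 3
    nlinarith
  · intro D D' h0 h9 h hx'
    simp only [K]
    rw [max_eq_left (by linarith : (0:ℝ) ≤ x - D), max_eq_right (by linarith : x - 9 * D ≤ (0:ℝ)),
      max_eq_left (by linarith : (0:ℝ) ≤ x - D'), max_eq_right (by linarith : x - 9 * D' ≤ (0:ℝ))]
    have ha0 : 0 ≤ x - D := by linarith
    have hb0 : 0 ≤ x - D' := by linarith
    have ha : 9 * (x - D) ≤ 8 * x := by linarith
    have hb : 9 * (x - D') ≤ 8 * x := by linarith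
    have e1 : 81 * (x - D) ^ 2 ≤ 64 * x ^ 2 := by nlinarith
    have e2 : 81 * (x - D') ^ 2 ≤ 64 * x ^ 2 := by nlinarith
    have e3 : 81 * ((x - D) * (x - D')) ≤ 64 * x ^ 2 := by nlinarith
    have e4 : 0 ≤ 8 * x ^ 2 - 3 * ((x - D) ^ 2 + (x - D) * (x - D') + (x - D') ^ 2) := by nlinarith
    nlinarith [mul_nonneg (sub_nonneg.2 h) e4]
  · intro D D' h0' h
    simp only [K]
    rw [max_eq_right (by linarith : x - D ≤ (0:ℝ)), max_eq_right (by linarith : x - 9 * D ≤ (0:ℝ)),
      max_eq_right (by linarith : x - D' ≤ (0:ℝ)), max_eq_right (by linarith : x - 9 * D' ≤ (0:ℝ))]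
    nlinarith [mul_nonneg (sub_nonneg.2 h) (sq_nonneg x)]



theorem kA {D x : ℝ} (hD : 0 ≤ D) (h : x ≤ D) : k D x = D * x / 2 := by
  unfold k
  rw [max_eq_right (by linarith), max_eq_right (by linarith)]
  ring

theorem kB {D x : ℝ} (h : D ≤ x) (h' : x ≤ 9 * D) : k D x = D * x / 2 + 9 / 32 * (x - D) ^ 2 := by
  unfold k
  rw [max_eq_left (by linarith), max_eq_right (by linarith)]
  ring

theorem kC {D x : ℝ} (hD : 0 ≤ D) (h : 9 * D ≤ x) : k D x = 5 / 18 * x ^ 2 := by
  unfold k
  rw [max_eq_left (by linarith), max_eq_left (by linarith)]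
  ring

theorem k_cases (D x : ℝ) : x ≤ D ∨ (D ≤ x ∧ x ≤ 9 * D) ∨ 9 * D ≤ x := by
  rcases le_total x D with h | h
  · exact Or.inl h
  · rcases le_total x (9 * D) with h' | h'
    · exact Or.inr (Or.inl ⟨h, h'⟩)
    · exact Or.inr (Or.inr h')

/-- monotone in the first argument -/
theorem k_mono_tb {D D' x : ℝ} (hD : 0 ≤ D) (hDD : D ≤ D') (hx : 0 ≤ x) : k D x ≤ k D' x := by
  have hD' : 0 ≤ D' := hD.trans hDD
  rcases k_cases D x with h | ⟨h, h1⟩ | h <;> rcases k_cases D' x with g | ⟨g, g1⟩ | g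
  · rw [kA hD h, kA hD' g]
    nlinarith
  · rw [kA hD h, kB g g1]
    nlinarith [mul_nonneg hx (sub_nonneg.2 hDD), sq_nonneg (x - D')]
  · rw [kA hD h, kC hD' g]
    nlinarith [mul_nonneg hx (sub_nonneg.2 hDD)]
  · rw [kB h h1, kA hD' g]
    nlinarith [mul_nonneg (sub_nonneg.2 h) hx, mul_nonneg (sub_nonneg.2 g) hx,
      mul_nonneg (sub_nonneg.2 h) hD]
  · rw [kB h h1, kB g g1]
    nlinarith [mul_nonneg (sub_nonneg.2 hDD) (sub_nonneg.2 h1),
      mul_nonneg (sub_nonneg.2 hDD) (sub_nonneg.2 g1)]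
  · rw [kB h h1, kC hD' g]
    have e1 : D' = D ∨ x ≤ 9 * D := Or.inr h1
    have e2 : x = 9 * D := by linarith
    subst e2
    nlinarith
  · rw [kC hD h, kA hD' g]
    nlinarith [mul_nonneg (sub_nonneg.2 g) hx]
  · rw [kC hD h, kB g g1]
    nlinarith [sq_nonneg (x - 9 * D')]
  · rw [kC hD h, kC hD' g]

/-- shift of both arguments -/
theorem k_shift {d q x : ℝ} (hq : 0 ≤ q) :
    q * (d + q + x) / 2 + k d x ≤ k (d + q) (x + q) := by
  unfold k
  have e1 : x + q - (d + q) = x - d := by ring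
  have e2 : max (x + q - 9 * (d + q)) 0 ≤ max (x - 9 * d) 0 := max_le_max_right 0 (by linarith)
  have e3 := pow_le_pow_left₀ (le_max_right _ _) e2 2
  rw [e1]
  nlinarith

theorem k_zero {x : ℝ} (hx : 0 ≤ x) : k 0 x = 5 / 18 * x ^ 2 := kC le_rfl (by linarith)

theorem k_e {e x : ℝ} (he : 0 ≤ e) (hx : 0 ≤ x) : e * x / 2 + k e x ≤ 5 / 18 * (e + x) ^ 2 := by
  rcases k_cases e x with h | ⟨h, h1⟩ | h
  · rw [kA he h]
    nlinarith [sq_nonneg (e - x), mul_nonneg he hx]
  · rw [kB h h1]
    nlinarith [mul_nonneg hx (sub_nonneg.2 h1), mul_nonneg he (sub_nonneg.2 h), mul_nonneg he hx]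
  · rw [kC he h]
    nlinarith [mul_nonneg he hx, sq_nonneg e]

theorem k_neg {q g x : ℝ} (hq : 0 ≤ q) (hg : 0 ≤ g) (hx : 0 ≤ x) :
    q * x / 2 - q * g / 2 + k (q + g) x ≤ k g (q + x) := by
  have hqg : 0 ≤ q + g := by linarith
  have m1 := mul_nonneg hq hg
  have m2 := mul_nonneg hq hx
  have m3 := mul_nonneg hg hx
  rcases k_cases (q + g) x with h | ⟨h, h1⟩ | h <;>
    rcases k_cases g (q + x) with l | ⟨l, l1⟩ | l
  · rw [kA hqg h, kA hg l]
    nlinarith [mul_nonneg hq (sub_nonneg.2 l)]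
  · rw [kA hqg h, kB l l1]
    nlinarith [mul_nonneg hq (sub_nonneg.2 h), mul_nonneg hq (sub_nonneg.2 l),
      sq_nonneg (q - (x - g)), sq_nonneg (q + (x - g)), sq_nonneg (x - g), sq_nonneg q]
  · rw [kA hqg h, kC hg l]
    nlinarith [sq_nonneg (q - (x - g)), sq_nonneg (q + (x - g)), mul_nonneg hq (sub_nonneg.2 h),
      sq_nonneg (q - x)]
  · rw [kB h h1, kA hg l]
    have e1 : q = 0 := by linarith
    have e2 : x = g := by linarith
    subst e1
    subst e2
    nlinarith
  · rw [kB h h1, kB l l1]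
    nlinarith [mul_nonneg hq (sub_nonneg.2 h)]
  · rw [kB h h1, kC hg l]
    nlinarith [mul_nonneg hq (sub_nonneg.2 h), mul_nonneg hq (sub_nonneg.2 h1),
      mul_nonneg hq (sub_nonneg.2 l), mul_nonneg (sub_nonneg.2 h) (sub_nonneg.2 l),
      mul_nonneg (sub_nonneg.2 h1) (sub_nonneg.2 l), mul_nonneg (sub_nonneg.2 h) (sub_nonneg.2 h1)]
  · rw [kC hqg h, kA hg l]
    have e1 : q = 0 := by linarith
    have e2 : x = 0 := by linarith
    subst e1
    subst e2
    nlinarith
  · rw [kC hqg h, kB l l1]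
    have e1 : q = 0 := by linarith
    subst e1
    have e2 : x = 9 * g := by linarith
    subst e2
    nlinarith
  · rw [kC hqg h, kC hg l]
    nlinarith

/-- pointwise inequality. Hints: three candidates for the maximum.
(a) `D - q` when `q ≤ D`: then `k (d+q) (x+q) ≥ q*(d+q+x)/2 + k d x` for all `d, q, x ≥ 0`
(with equality unless `x + q > 9 (d + q)` or so);
(b) `q + min D (-s)`: if `0 ≤ s` it is `e = q - s`, use `k s (s+e+x) ≥ s*(s+e+x)/2 + k 0 (e+x)`
(monotone in `D` and (a)) and `e*x/2 + k e x ≤ 5/18*(e+x)^2 = k 0 (e+x)`;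
if `s < 0` let `g = min D (-s)`, then `q*s/2 ≤ -q*g/2` and
`q*x/2 - q*g/2 + k (q+g) x ≤ k g (q+x)`; (c) `0`. -/
theorem pointwise {q x D s : ℝ} (hq : 0 ≤ q) (hx : 0 ≤ x) (hD : 0 ≤ D) (hs : s ≤ D) :
    q * s / 2 + q * x / 2 + k (max 0 (max (D - q) (q + min D (-s)))) x ≤ k D (q + x) := by
  -- candidate `D - q`
  have ha : q ≤ D → q * s / 2 + q * x / 2 + k (D - q) x ≤ k D (q + x) := by
    intro hqD
    have h1 := k_shift (d := D - q) (x := x) hq
    have e1 : D - q + q = D := by ring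
    rw [e1, add_comm x q] at h1
    nlinarith [mul_nonneg hq (sub_nonneg.2 hs)]
  -- candidate `q + min D (-s)`
  have hb : 0 ≤ q + min D (-s) → q * s / 2 + q * x / 2 + k (q + min D (-s)) x ≤ k D (q + x) := by
    intro hM
    rcases le_or_gt 0 s with h0 | h0
    · have e1 : min D (-s) = -s := min_eq_right (by linarith)
      rw [e1] at hM ⊢
      have he : 0 ≤ q + -s := hM
      have h1 := k_mono_tb h0 hs (show 0 ≤ q + x by linarith)
      have h2 := k_shift (d := 0) (q := s) (x := (q + -s) + x) h0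
      rw [k_zero (by linarith), zero_add, show q + -s + x + s = q + x by ring] at h2
      have h3 := k_e he hx
      nlinarith
    · have hg : 0 ≤ min D (-s) := le_min hD (by linarith)
      have h1 := k_mono_tb hg (min_le_left D (-s)) (show 0 ≤ q + x by linarith)
      have h2 := k_neg hq hg hx
      have h3 : min D (-s) ≤ -s := min_le_right _ _
      nlinarith [mul_nonneg hq (sub_nonneg.2 h3)]
  rcases le_total (D - q) (q + min D (-s)) with h1 | h1
  · rw [max_eq_right h1]
    rcases le_total 0 (q + min D (-s)) with h2 | h2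
    · rw [max_eq_right h2]
      exact hb h2
    · rw [max_eq_left h2]
      -- everything is zero or `q = D = s`
      have h3 : k 0 x ≤ k 0 x := le_rfl
      have hDq : D ≤ q := by linarith
      rcases le_total D (-s) with h4 | h4
      · rw [min_eq_left h4] at h2
        have e1 : q = 0 := by linarith
        have e2 : D = 0 := by linarith
        subst e1
        subst e2
        simp
      · rw [min_eq_right h4] at h2
        have e1 : q = D := by linarith
        have e2 : s = D := by linarith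
        have h5 := ha e1.le
        rw [e1, sub_self] at h5
        rw [e1]
        exact h5
  · rw [max_eq_left h1]
    rcases le_total 0 (D - q) with h2 | h2
    · rw [max_eq_right h2]
      exact ha (by linarith)
    · rw [max_eq_left h2]
      have hM : q + min D (-s) ≤ 0 := h1.trans h2
      rcases le_total D (-s) with h4 | h4
      · rw [min_eq_left h4] at hM
        have e1 : q = 0 := by linarith
        have e2 : D = 0 := by linarith
        subst e1
        subst e2
        simp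
      · rw [min_eq_right h4] at hM
        have e1 : q = D := by linarith
        have h5 := ha e1.le
        rw [e1, sub_self] at h5
        rw [e1]
        exact h5



theorem K_zero (D : ℝ) (hD : 0 ≤ D) : K D 0 = 0 := by
  unfold K
  have h1 : max (0 - D) 0 = 0 := max_eq_right (by linarith)
  have h2 : max (0 - 9 * D) 0 = 0 := max_eq_right (by linarith)
  rw [h1, h2]
  ring

theorem K_zero_left {x : ℝ} (hx : 0 ≤ x) : K 0 x = 5 / 54 * x ^ 3 := by
  unfold K
  have h1 : max (x - 0) 0 = x := by rw [sub_zero]; exact max_eq_left hx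
  have h2 : max (x - 9 * 0) 0 = x := by rw [mul_zero, sub_zero]; exact max_eq_left hx
  rw [h1, h2]
  ring

theorem hasDerivAt_maxcube (c x : ℝ) :
    HasDerivAt (fun y : ℝ => (max (y - c) 0) ^ 3) (3 * (max (x - c) 0) ^ 2) x := by
  rcases lt_trichotomy x c with h | h | h
  · have h1 : max (x - c) 0 = 0 := max_eq_right (by linarith)
    rw [h1]
    have h2 : (fun y : ℝ => (max (y - c) 0) ^ 3) =ᶠ[nhds x] fun _ => (0 : ℝ) := by
      filter_upwards [Iio_mem_nhds h] with y hy
      have hy' : y < c := hy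
      have h3 : max (y - c) 0 = 0 := max_eq_right (by linarith)
      rw [h3]; ring
    have h4 : HasDerivAt (fun _ : ℝ => (0 : ℝ)) (3 * (0 : ℝ) ^ 2) x := by
      exact (hasDerivAt_const x (0 : ℝ)).congr_deriv (by ring)
    exact h4.congr_of_eventuallyEq h2
  · subst h
    have h1 : max (x - x) 0 = 0 := by rw [sub_self]; exact max_self 0
    rw [h1]
    have e : (3 * (0 : ℝ) ^ 2) = 0 := by ring
    rw [e, hasDerivAt_iff_isLittleO]
    have hb : (fun y : ℝ => (max (y - x) 0) ^ 3 - (max (x - x) 0) ^ 3 - (y - x) • (0 : ℝ))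
        =O[nhds x] fun y => ‖y - x‖ ^ 3 := by
      refine Asymptotics.IsBigO.of_bound 1 (Filter.Eventually.of_forall fun y => ?_)
      rw [h1]
      have h5 : (max (y - x) 0) ^ 3 - (0 : ℝ) ^ 3 - (y - x) • (0 : ℝ) = (max (y - x) 0) ^ 3 := by
        simp
      rw [h5, one_mul, norm_pow, norm_pow, norm_norm]
      refine pow_le_pow_left₀ (norm_nonneg _) ?_ 3
      rw [Real.norm_eq_abs, Real.norm_eq_abs, abs_of_nonneg (le_max_right _ _)]
      exact max_le (le_abs_self _) (abs_nonneg _)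
    exact hb.trans_isLittleO (Asymptotics.isLittleO_pow_sub_sub x (by norm_num))
  · have h1 : max (x - c) 0 = x - c := max_eq_left (by linarith)
    rw [h1]
    have h2 : (fun y : ℝ => (max (y - c) 0) ^ 3) =ᶠ[nhds x] fun y => (y - c) ^ 3 := by
      filter_upwards [Ioi_mem_nhds h] with y hy
      have hy' : c < y := hy
      have h3 : max (y - c) 0 = y - c := max_eq_left (by linarith)
      rw [h3]
    have h4 : HasDerivAt (fun y : ℝ => (y - c) ^ 3) (3 * (x - c) ^ 2) x := by
      exact (((hasDerivAt_id' x).sub_const c).pow 3).congr_deriv (by norm_num)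
    exact h4.congr_of_eventuallyEq h2

theorem hasDerivAt_K (D x : ℝ) : HasDerivAt (fun y => K D y) (k D x) x := by
  unfold K k
  have h1 := hasDerivAt_maxcube D x
  have h2 := hasDerivAt_maxcube (9 * D) x
  have h0 : HasDerivAt (fun y : ℝ => D * y ^ 2 / 4) (D * x / 2) x := by
    exact ((((hasDerivAt_id' x).pow 2).const_mul D).div_const 4).congr_deriv (by norm_num; ring)
  exact ((h0.add (h1.const_mul (3 / 32))).sub (h2.const_mul (1 / 864))).congr_deriv (by ring)

theorem k_nonneg {D x : ℝ} (hD : 0 ≤ D) (hx : 0 ≤ x) : 0 ≤ k D x := by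
  unfold k
  have h1 : 0 ≤ max (x - 9 * D) 0 := le_max_right _ _
  have h2 : max (x - 9 * D) 0 ≤ max (x - D) 0 := max_le_max (by linarith) le_rfl
  have h3 : (max (x - 9 * D) 0) ^ 2 ≤ (max (x - D) 0) ^ 2 := pow_le_pow_left₀ h1 h2 2
  have h4 : 0 ≤ D * x := mul_nonneg hD hx
  have h5 : 0 ≤ (max (x - D) 0) ^ 2 := sq_nonneg _
  linarith

theorem K_nonneg {D x : ℝ} (hD : 0 ≤ D) (hx : 0 ≤ x) : 0 ≤ K D x := by
  unfold K
  have h1 : 0 ≤ max (x - 9 * D) 0 := le_max_right _ _
  have h2 : max (x - 9 * D) 0 ≤ max (x - D) 0 := max_le_max (by linarith) le_rfl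
  have h3 : (max (x - 9 * D) 0) ^ 3 ≤ (max (x - D) 0) ^ 3 := pow_le_pow_left₀ h1 h2 3
  have h4 : 0 ≤ D * x ^ 2 := mul_nonneg hD (sq_nonneg x)
  have h5 : 0 ≤ (max (x - D) 0) ^ 3 := pow_nonneg (le_max_right _ _) 3
  linarith

/-- a function which vanishes at 0 and has nonnegative derivative on `[0, ∞)` is nonnegative -/
theorem nonneg_of_deriv {f f' : ℝ → ℝ} (h : ∀ x, HasDerivAt f (f' x) x) (h0 : f 0 = 0)
    (h1 : ∀ x, 0 ≤ x → 0 ≤ f' x) {x : ℝ} (hx : 0 ≤ x) : 0 ≤ f x := by
  have hm : MonotoneOn f (Set.Ici (0 : ℝ)) := by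
    refine monotoneOn_of_deriv_nonneg (convex_Ici 0) ?_ ?_ ?_
    · exact fun y _ => (h y).continuousAt.continuousWithinAt
    · exact fun y _ => (h y).differentiableAt.differentiableWithinAt
    · intro y hy
      rw [interior_Ici] at hy
      rw [(h y).deriv]
      exact h1 y (le_of_lt hy)
  have := hm (Set.mem_Ici.mpr le_rfl) (Set.mem_Ici.mpr hx) hx
  rwa [h0] at this






theorem ttd_sq (c x : ℝ) :
    HasDerivAt (fun y : ℝ => (max (y - c) 0) ^ 2) (2 * max (x - c) 0) x := by
  have hsq : ∀ x : ℝ, HasDerivAt (fun y : ℝ => (y - c) ^ 2) (2 * (x - c)) x := by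
    intro x
    have h : HasDerivAt (fun y : ℝ => (y - c) ^ 2) ((2 : ℕ) * (x - c) ^ (2 - 1) * 1) x :=
      ((hasDerivAt_id x).sub_const c).pow 2
    have e : ((2 : ℕ) : ℝ) * (x - c) ^ (2 - 1) * 1 = 2 * (x - c) := by
      norm_num
    rw [← e]
    exact h
  rcases lt_trichotomy x c with h | h | h
  · have h1 : (fun y : ℝ => (max (y - c) 0) ^ 2) =ᶠ[nhds x] fun _ => 0 := by
      filter_upwards [Iio_mem_nhds h] with y hy
      have hy' : y < c := hy
      rw [max_eq_right (by linarith)]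
      norm_num
    rw [max_eq_right (by linarith), mul_zero]
    exact (hasDerivAt_const x (0 : ℝ)).congr_of_eventuallyEq h1
  · subst h
    rw [sub_self, max_self, mul_zero]
    have h1 : HasDerivWithinAt (fun y : ℝ => (max (y - x) 0) ^ 2) 0 (Set.Iic x) x := by
      apply (hasDerivWithinAt_const x (Set.Iic x) (0 : ℝ)).congr
      · intro y hy
        have hy' : y ≤ x := hy
        rw [max_eq_right (by linarith)]
        norm_num
      · rw [sub_self, max_self]; norm_num
    have h2 : HasDerivWithinAt (fun y : ℝ => (max (y - x) 0) ^ 2) 0 (Set.Ici x) x := by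
      have h3 := (hsq x).hasDerivWithinAt (s := Set.Ici x)
      rw [sub_self, mul_zero] at h3
      apply h3.congr
      · intro y hy
        have hy' : x ≤ y := hy
        rw [max_eq_left (by linarith)]
      · rw [sub_self, max_self]
    have h4 := h1.union h2
    rw [Set.Iic_union_Ici] at h4
    exact h4.hasDerivAt Filter.univ_mem
  · have h1 : (fun y : ℝ => (max (y - c) 0) ^ 2) =ᶠ[nhds x] fun y => (y - c) ^ 2 := by
      filter_upwards [Ioi_mem_nhds h] with y hy
      have hy' : c < y := hy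
      rw [max_eq_left (by linarith)]
    rw [max_eq_left (by linarith)]
    exact (hsq x).congr_of_eventuallyEq h1

/-- the derivative of `k` -/
noncomputable def ttd_m (D x : ℝ) : ℝ :=
  D / 2 + 9 / 16 * max (x - D) 0 - 1 / 144 * max (x - 9 * D) 0

theorem ttd_k_deriv (D x : ℝ) : HasDerivAt (fun y => k D y) (ttd_m D x) x := by
  unfold k ttd_m
  have h1 : HasDerivAt (fun y : ℝ => D * y / 2) (D / 2) x := by
    have h := ((hasDerivAt_id x).const_mul D).div_const 2
    simpa using h
  have h2 := (ttd_sq D x).const_mul (9 / 32 : ℝ)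
  have h3 := (ttd_sq (9 * D) x).const_mul (1 / 288 : ℝ)
  have h4 := (h1.add h2).sub h3
  have e : D / 2 + 9 / 32 * (2 * max (x - D) 0) - 1 / 288 * (2 * max (x - 9 * D) 0) =
      D / 2 + 9 / 16 * max (x - D) 0 - 1 / 144 * max (x - 9 * D) 0 := by ring
  rw [← e]
  exact h4

theorem ttd_m_mono {D x y : ℝ} (hD : 0 ≤ D) (h : x ≤ y) : ttd_m D x ≤ ttd_m D y := by
  unfold ttd_m
  rcases max_cases (x - D) 0 with ⟨h1, h1'⟩ | ⟨h1, h1'⟩ <;>
    rcases max_cases (y - D) 0 with ⟨h2, h2'⟩ | ⟨h2, h2'⟩ <;>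
    rcases max_cases (x - 9 * D) 0 with ⟨h3, h3'⟩ | ⟨h3, h3'⟩ <;>
    rcases max_cases (y - 9 * D) 0 with ⟨h4, h4'⟩ | ⟨h4, h4'⟩ <;>
    rw [h1, h2, h3, h4] <;> linarith

theorem ttd_K_zero {D : ℝ} (hD : 0 ≤ D) : K D 0 = 0 := by
  unfold K
  rw [max_eq_right (by linarith), max_eq_right (by linarith)]
  norm_num

/-- `k` has nondecreasing increments in `x` (it is convex on `[0, ∞)`: piecewise quadratic with
continuous nondecreasing derivative) -/
theorem k_convex {D a b x : ℝ} (hD : 0 ≤ D) (ha : 0 ≤ a) (hb : 0 ≤ b) (hx : 0 ≤ x) :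
    k D (a + x) + k D (b + x) ≤ k D (a + b + x) + k D x := by
  have hsh : ∀ c t : ℝ, HasDerivAt (fun y => k D (y + c)) (ttd_m D (t + c)) t := by
    intro c t
    exact (ttd_k_deriv D (t + c)).comp_add_const t c
  have h := nonneg_of_deriv (f := fun t => k D (t + (b + x)) - k D (t + x) - (k D (b + x) - k D x))
    (f' := fun t => ttd_m D (t + (b + x)) - ttd_m D (t + x))
    (fun t => ((hsh (b + x) t).sub (hsh x t)).sub_const _)
    (by simp)
    (fun t _ => sub_nonneg.2 (ttd_m_mono hD (by linarith))) ha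
  have e : a + (b + x) = a + b + x := by ring
  simp only [e] at h
  linarith

/-- from `pointwise`: for fixed `q` the difference of the sides vanishes at `p = 0` and has
nonnegative derivative in `p` -/
theorem step_two {p q D s : ℝ} (hp : 0 ≤ p) (hq : 0 ≤ q) (hD : 0 ≤ D) (hs : s ≤ D) :
    p * q * s / 2 + q * p ^ 2 / 4 + K (max 0 (max (D - q) (q + min D (-s)))) p + K D q
      ≤ K D (p + q) := by
  have hD' : 0 ≤ max 0 (max (D - q) (q + min D (-s))) := le_max_left _ _
  have hpw := fun x (hx : 0 ≤ x) => pointwise (q := q) (x := x) (D := D) (s := s) hq hx hD hs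
  generalize max 0 (max (D - q) (q + min D (-s))) = D' at hD' hpw ⊢
  have h1 : ∀ t : ℝ, HasDerivAt (fun y => K D (y + q)) (k D (t + q)) t := fun t =>
    (hasDerivAt_K D (t + q)).comp_add_const t q
  have h2 : ∀ t : ℝ, HasDerivAt (fun y : ℝ => y * q * s / 2 + q * y ^ 2 / 4)
      (q * s / 2 + q * t / 2) t := by
    intro t
    have a1 : HasDerivAt (fun y : ℝ => y * q * s / 2) (q * s / 2) t := by
      have := (((hasDerivAt_id t).mul_const q).mul_const s).div_const 2
      simpa using this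
    have a2 : HasDerivAt (fun y : ℝ => q * y ^ 2 / 4) (q * t / 2) t := by
      have := (((hasDerivAt_id t).pow 2).const_mul q).div_const 4
      have e : q * (2 * t ^ (2 - 1) * 1) / 4 = q * t / 2 := by
        norm_num
        ring
      rw [← e]
      simpa using this
    exact a1.add a2
  have h := nonneg_of_deriv
    (f := fun t => K D (t + q) - ((t * q * s / 2 + q * t ^ 2 / 4) + K D' t) - K D q)
    (f' := fun t => k D (t + q) - ((q * s / 2 + q * t / 2) + k D' t))
    (fun t => ((h1 t).sub ((h2 t).add (hasDerivAt_K D' t))).sub_const _)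
    (by simp [ttd_K_zero hD'])
    (fun t ht => by
      have := hpw t ht
      rw [add_comm q t] at this
      linarith) hp
  linarith

/-- from `k_convex`: the difference as a function of `c` vanishes at `c = 0` (use `K D 0 = 0`) -/
theorem K_super {a b c D : ℝ} (ha : 0 ≤ a) (hb : 0 ≤ b) (hc : 0 ≤ c) (hD : 0 ≤ D) :
    K D (a + b) + K D (b + c) + K D (c + a) ≤ K D (a + b + c) + K D a + K D b + K D c := by
  have hsh : ∀ e t : ℝ, HasDerivAt (fun y => K D (y + e)) (k D (t + e)) t := fun e t =>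
    (hasDerivAt_K D (t + e)).comp_add_const t e
  have h := nonneg_of_deriv
    (f := fun t => K D (t + (a + b)) + K D t - K D (t + b) - K D (t + a) -
      (K D (a + b) - K D a - K D b))
    (f' := fun t => k D (t + (a + b)) + k D t - k D (t + b) - k D (t + a))
    (fun t => ((((hsh (a + b) t).add (hasDerivAt_K D t)).sub (hsh b t)).sub
      (hsh a t)).sub_const _)
    (by simp [ttd_K_zero hD]; ring)
    (fun t ht => by
      have := k_convex hD ha hb ht
      have e1 : t + (a + b) = a + b + t := by ring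
      have e2 : t + b = b + t := by ring
      have e3 : t + a = a + t := by ring
      rw [e1, e2, e3]
      linarith) hc
  have e1 : c + (a + b) = a + b + c := by ring
  have e2 : c + b = b + c := by ring
  simp only [e1, e2] at h
  linarith


end Pool.Agent.Helper72_TT
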