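import Pool.Agent.Helper72_TT.Comb

set_option autoImplicit false
open Finset

namespace Pool.Agent.Helper72_TT

variable {V : Type} [DecidableEq V] {H : Finset (Finset V)}

theorem card_split {e P Q N : Finset V} (he : e ⊆ P ∪ Q ∪ N) (h1 : Disjoint P Q)
    (h2 : Disjoint (P ∪ Q) N) : e.card = (e ∩ P).card + (e ∩ Q).card + (e ∩ N).card := by
  have e1 : e = (e ∩ (P ∪ Q)) ∪ (e ∩ N) := by
    rw [← inter_union_distrib_left]; exact (inter_eq_left.2 he).symm
  have e2 : e ∩ (P ∪ Q) = (e ∩ P) ∪ (e ∩ Q) := inter_union_distrib_left _ _ _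
  have d1 : Disjoint (e ∩ (P ∪ Q)) (e ∩ N) := h2.mono inter_subset_right inter_subset_right
  have d2 : Disjoint (e ∩ P) (e ∩ Q) := h1.mono inter_subset_right inter_subset_right
  calc e.card = ((e ∩ (P ∪ Q)) ∪ (e ∩ N)).card := by rw [← e1]
    _ = (e ∩ (P ∪ Q)).card + (e ∩ N).card := card_union_of_disjoint d1
    _ = _ := by rw [e2, card_union_of_disjoint d2]

/-- a triple with one vertex in each of three disjoint sets -/
theorem eq_of_one {e P Q N : Finset V} (he : e ⊆ P ∪ Q ∪ N) (p : (e ∩ P).card = 1)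
    (q : (e ∩ Q).card = 1) (r : (e ∩ N).card = 1) :
    ∃ x ∈ P, ∃ y ∈ Q, ∃ z ∈ N, e = {x, y, z} := by
  obtain ⟨x, hx⟩ := card_eq_one.1 p
  obtain ⟨y, hy⟩ := card_eq_one.1 q
  obtain ⟨z, hz⟩ := card_eq_one.1 r
  have hx' : x ∈ e ∩ P := hx ▸ mem_singleton_self x
  have hy' : y ∈ e ∩ Q := hy ▸ mem_singleton_self y
  have hz' : z ∈ e ∩ N := hz ▸ mem_singleton_self z
  refine ⟨x, (mem_inter.1 hx').2, y, (mem_inter.1 hy').2, z, (mem_inter.1 hz').2, ?_⟩
  ext a
  simp only [mem_insert, mem_singleton]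
  constructor
  · intro ha
    rcases mem_union.1 (he ha) with h | h
    · rcases mem_union.1 h with h | h
      · left; have : a ∈ e ∩ P := mem_inter.2 ⟨ha, h⟩; rw [hx] at this; exact mem_singleton.1 this
      · right; left; have : a ∈ e ∩ Q := mem_inter.2 ⟨ha, h⟩
        rw [hy] at this; exact mem_singleton.1 this
    · right; right; have : a ∈ e ∩ N := mem_inter.2 ⟨ha, h⟩
      rw [hz] at this; exact mem_singleton.1 this
  · rintro (rfl | rfl | rfl)
    · exact (mem_inter.1 hx').1
    · exact (mem_inter.1 hy').1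
    · exact (mem_inter.1 hz').1

/-- an edge with one vertex in `P` and two vertices in `Q` contradicts the arrow -/
theorem not_one_two {e P Q : Finset V} (hA : Arrow H P Q) (heH : e ∈ H) (h3 : e.card = 3)
    (hPQ : Disjoint P Q) (p : (e ∩ P).card = 1) (q : (e ∩ Q).card = 2) : False := by
  obtain ⟨x, hx⟩ := card_eq_one.1 p
  obtain ⟨y, z, hyz, hq⟩ := card_eq_two.1 q
  have hx' : x ∈ e ∩ P := hx ▸ mem_singleton_self x
  have hy' : y ∈ e ∩ Q := by rw [hq]; simp
  have hz' : z ∈ e ∩ Q := by rw [hq]; simp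
  have hxy : x ≠ y := fun h => disjoint_left.1 hPQ (mem_inter.1 hx').2 (h ▸ (mem_inter.1 hy').2)
  have hxz : x ≠ z := fun h => disjoint_left.1 hPQ (mem_inter.1 hx').2 (h ▸ (mem_inter.1 hz').2)
  have hsub : ({x, y, z} : Finset V) ⊆ e := by
    intro a ha
    simp only [mem_insert, mem_singleton] at ha
    rcases ha with rfl | rfl | rfl
    · exact (mem_inter.1 hx').1
    · exact (mem_inter.1 hy').1
    · exact (mem_inter.1 hz').1
  have hc : ({x, y, z} : Finset V).card = 3 := by
    rw [card_insert_of_notMem, card_insert_of_notMem, card_singleton]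
    · simp [hyz]
    · simp [hxy, hxz]
  have he : ({x, y, z} : Finset V) = e := eq_of_subset_of_card_le hsub (by rw [hc, h3])
  exact hA x (mem_inter.1 hx').2 y (mem_inter.1 hy').2 z (mem_inter.1 hz').2 hyz (he ▸ heH)

theorem val_two_subset (h3 : ∀ e ∈ H, e.card = 3) {P Q N : Finset V} (hPQ : Disjoint P Q)
    (hN : Disjoint (P ∪ Q) N) (hA : Arrow H P Q) :
    val H (P ∪ Q) N ⊆ val H P (N ∪ Q) ∪ val H Q N ∪ Tr P Q (Sset H P Q N) := by
  classical
  intro e he
  unfold val at he
  rw [mem_filter] at he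
  obtain ⟨heH, hsub, h2⟩ := he
  have hc := card_split hsub hPQ hN
  rw [h3 e heH] at hc
  have hpq : (e ∩ (P ∪ Q)).card = (e ∩ P).card + (e ∩ Q).card := by
    rw [inter_union_distrib_left]
    exact card_union_of_disjoint (hPQ.mono inter_subset_right inter_subset_right)
  rw [hpq] at h2
  simp only [mem_union]
  by_cases hp : 2 ≤ (e ∩ P).card
  · left; left
    unfold val
    rw [mem_filter]
    refine ⟨heH, ?_, hp⟩
    intro a ha
    have := hsub ha
    simp only [mem_union] at this ⊢
    tauto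
  · by_cases hq0 : (e ∩ P).card = 0
    · left; right
      unfold val
      rw [mem_filter]
      refine ⟨heH, ?_, by omega⟩
      intro a ha
      have h1 := hsub ha
      have : a ∉ P := fun h => by
        rw [card_eq_zero] at hq0
        exact absurd (mem_inter.2 ⟨ha, h⟩) (hq0 ▸ notMem_empty a)
      simp only [mem_union] at h1 ⊢
      tauto
    · have hp1 : (e ∩ P).card = 1 := by omega
      by_cases hq : 2 ≤ (e ∩ Q).card
      · exact absurd (not_one_two hA heH (h3 e heH) hPQ hp1 (by omega)) not_false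
      · right
        obtain ⟨x, hx, y, hy, z, hz, rfl⟩ := eq_of_one hsub hp1 (by omega) (by omega)
        unfold Tr
        rw [mem_image]
        refine ⟨(x, y, z), ?_, rfl⟩
        simp only [mem_product]
        refine ⟨hx, hy, ?_⟩
        unfold Sset
        rw [mem_filter]
        exact ⟨hz, x, hx, y, hy, heH⟩

/-- independent sets after adding `Q` to the outside set -/
theorem ind_bound {P Q N A : Finset V} {D : ℝ} (hPQ : Disjoint P Q)
    (hN : Disjoint (P ∪ Q) N) (hP : IsMod H P) (hQ : IsMod H Q) (hA : IsMod H A)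
    (hAN : Disjoint A N) (hPA : P ⊆ A) (hPn : P.Nonempty)
    (hI : ∀ I ⊆ N, Ind H A I → 2 * (I.card : ℝ) ≤ N.card + D) :
    ∀ I ⊆ N ∪ Q, Ind H P I → 2 * (I.card : ℝ) ≤ ((N ∪ Q).card : ℝ) +
      max 0 (max (D - Q.card) (Q.card +
        min D (-(2 * ((Sset H P Q N).card : ℝ) - N.card)))) := by
  classical
  intro I hIs hInd
  have hNQ : Disjoint N Q := (disjoint_left.2 fun a ha hb =>
    disjoint_left.1 hN (mem_union_right _ hb) ha)
  have hc : ((N ∪ Q).card : ℝ) = N.card + Q.card := by
    rw [card_union_of_disjoint hNQ]; push_cast; ring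
  rw [hc]
  have key : ∀ J ⊆ N, Ind H P J → 2 * (J.card : ℝ) ≤ N.card + D := by
    intro J hJ hJI
    refine hI J hJ (ind_of hA (hAN.mono_right hJ) ?_ hJI)
    obtain ⟨x, hx⟩ := hPn
    exact ⟨x, mem_inter.2 ⟨hx, hPA hx⟩⟩
  have hsplit : I.card = (I ∩ N).card + (I ∩ Q).card := by
    have : I = (I ∩ N) ∪ (I ∩ Q) := by
      rw [← inter_union_distrib_left]; exact (inter_eq_left.2 hIs).symm
    calc I.card = ((I ∩ N) ∪ (I ∩ Q)).card := by rw [← this]
      _ = _ := card_union_of_disjoint (hNQ.mono inter_subset_right inter_subset_right)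
  have hIN : Ind H P (I ∩ N) := fun x hx y hy z hz hyz =>
    hInd x hx y (mem_inter.1 hy).1 z (mem_inter.1 hz).1 hyz
  have k1 := key (I ∩ N) inter_subset_right hIN
  by_cases hq : (I ∩ Q) = ∅
  · rw [hq, card_empty, add_zero] at hsplit
    rw [hsplit]
    have : D - Q.card ≤ max 0 (max (D - (Q.card : ℝ)) (Q.card +
        min D (-(2 * ((Sset H P Q N).card : ℝ) - N.card)))) :=
      le_trans (le_max_left _ _) (le_max_right _ _)
    linarith
  · obtain ⟨y0, hy0⟩ := nonempty_iff_ne_empty.2 hq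
    rw [mem_inter] at hy0
    have hsub : I ∩ N ⊆ N \ Sset H P Q N := by
      intro z hz
      rw [mem_inter] at hz
      rw [mem_sdiff]
      refine ⟨hz.2, fun hzS => ?_⟩
      obtain ⟨x, hx⟩ := hPn
      have hne : y0 ≠ z := fun h => disjoint_left.1 hNQ hz.2 (h ▸ hy0.2)
      exact hInd x hx y0 hy0.1 z hz.1 hne (Sset_all hPQ hN hP hQ hzS hx hy0.2)
    have hSs : Sset H P Q N ⊆ N := filter_subset _ _
    have k2 : ((I ∩ N).card : ℝ) ≤ N.card - (Sset H P Q N).card := by
      have h1 := card_le_card hsub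
      have h2 := card_sdiff_add_card_eq_card hSs
      have h3 : ((N \ Sset H P Q N).card : ℝ) + (Sset H P Q N).card = N.card := by
        exact_mod_cast h2
      have h4 : ((I ∩ N).card : ℝ) ≤ (N \ Sset H P Q N).card := by exact_mod_cast h1
      linarith
    have k3 : ((I ∩ Q).card : ℝ) ≤ Q.card := by exact_mod_cast card_le_card inter_subset_right
    have hs' : (I.card : ℝ) = (I ∩ N).card + (I ∩ Q).card := by exact_mod_cast hsplit
    have k4 : 2 * ((I ∩ N).card : ℝ) - N.card ≤
        min D (-(2 * ((Sset H P Q N).card : ℝ) - N.card)) :=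
      le_min (by linarith) (by linarith)
    have : (Q.card : ℝ) + min D (-(2 * ((Sset H P Q N).card : ℝ) - N.card)) ≤
        max 0 (max (D - (Q.card : ℝ)) (Q.card +
        min D (-(2 * ((Sset H P Q N).card : ℝ) - N.card)))) :=
      le_trans (le_max_right _ _) (le_max_right _ _)
    linarith

end Pool.Agent.Helper72_TT
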