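import Pool.Agent.Helper72_TT.Defs

set_option autoImplicit false
open Finset

namespace Pool.Agent.Helper72_TT

variable {V : Type} [DecidableEq V] {H : Finset (Finset V)}

theorem perm1 (x y z : V) : ({x, y, z} : Finset V) = {y, x, z} := by
  ext a; simp only [mem_insert, mem_singleton]; tauto

theorem perm2 (x y z : V) : ({x, y, z} : Finset V) = {x, z, y} := by
  ext a; simp only [mem_insert, mem_singleton]; tauto

theorem perm3 (x y z : V) : ({x, y, z} : Finset V) = {y, z, x} := by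
  ext a; simp only [mem_insert, mem_singleton]; tauto

theorem perm4 (x y z : V) : ({x, y, z} : Finset V) = {z, x, y} := by
  ext a; simp only [mem_insert, mem_singleton]; tauto

theorem perm5 (x y z : V) : ({x, y, z} : Finset V) = {z, y, x} := by
  ext a; simp only [mem_insert, mem_singleton]; tauto

theorem card_Tr_le (P Q S : Finset V) : (Tr P Q S).card ≤ P.card * Q.card * S.card := by
  unfold Tr
  refine card_image_le.trans ?_
  rw [card_product, card_product, mul_assoc]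

theorem arrow_or (hF : Free H) {P Q : Finset V} (hPQ : Disjoint P Q) (hP : IsMod H P)
    (hQ : IsMod H Q) : Arrow H P Q ∨ Arrow H Q P := by
  by_contra hcon
  push Not at hcon
  obtain ⟨h1, h2⟩ := hcon
  unfold Arrow at h1 h2
  push Not at h1 h2
  obtain ⟨x, hx, y, hy, z, hz, hyz, h1⟩ := h1
  obtain ⟨u, hu, v, hv, w, hw, hvw, h2⟩ := h2
  -- x ∈ P, y z ∈ Q ; u ∈ Q, v w ∈ P
  have nPQ : ∀ a ∈ P, a ∉ Q := fun a ha hb => disjoint_left.1 hPQ ha hb
  have nQP : ∀ a ∈ Q, a ∉ P := fun a ha hb => disjoint_left.1 hPQ hb ha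
  have ne : ∀ a ∈ P, ∀ b ∈ Q, a ≠ b := fun a ha b hb h => nPQ a ha (h ▸ hb)
  -- four vertices v w y z
  refine hF v w y z hvw (ne v hv y hy) (ne v hv z hz) (ne w hw y hy) (ne w hw z hz) hyz ?_ ?_ ?_ ?_
  · rw [perm4]; exact hQ u hu y hy v (nPQ v hv) w (nPQ w hw) hvw h2
  · rw [perm4]; exact hQ u hu z hz v (nPQ v hv) w (nPQ w hw) hvw h2
  · exact hP x hx v hv y (nQP y hy) z (nQP z hz) hyz h1
  · exact hP x hx w hw y (nQP y hy) z (nQP z hz) hyz h1

/-- a vertex of `Sset` forms an edge with every pair of `P × Q` -/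
theorem Sset_all {P Q N : Finset V} (hPQ : Disjoint P Q) (hN : Disjoint (P ∪ Q) N)
    (hP : IsMod H P) (hQ : IsMod H Q) {z : V} (hz : z ∈ Sset H P Q N) {x y : V} (hx : x ∈ P)
    (hy : y ∈ Q) : ({x, y, z} : Finset V) ∈ H := by
  classical
  unfold Sset at hz
  rw [mem_filter] at hz
  obtain ⟨hzN, x0, hx0, y0, hy0, h⟩ := hz
  have hzP : z ∉ P := fun h' => disjoint_left.1 hN (mem_union_left _ h') hzN
  have hzQ : z ∉ Q := fun h' => disjoint_left.1 hN (mem_union_right _ h') hzN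
  have hy0P : y0 ∉ P := fun h' => disjoint_left.1 hPQ h' hy0
  have hxQ : x ∉ Q := fun h' => disjoint_left.1 hPQ hx h'
  have h1 : ({x, y0, z} : Finset V) ∈ H :=
    hP x0 hx0 x hx y0 hy0P z hzP (fun h' => hzQ (h' ▸ hy0)) h
  rw [perm1] at h1 ⊢
  exact hQ y0 hy0 y hy x hxQ z hzQ (fun h' => hzP (h' ▸ hx)) h1

/-- for a module, independence can be tested at one vertex -/
theorem ind_of {A B I : Finset V} (hA : IsMod H A) (hI : Disjoint A I) (hB : (B ∩ A).Nonempty)
    (h : Ind H B I) : Ind H A I := by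
  intro x hx y hy z hz hyz hH
  obtain ⟨b, hb⟩ := hB
  rw [mem_inter] at hb
  exact h b hb.1 y hy z hz hyz (hA x hx b hb.2 y (fun h' => disjoint_left.1 hI h' hy) z
    (fun h' => disjoint_left.1 hI h' hz) hyz hH)

theorem Sset_ind (hF : Free H) {P Q N A : Finset V} (hPQ : Disjoint P Q)
    (hN : Disjoint (P ∪ Q) N) (hP : IsMod H P) (hQ : IsMod H Q) (hA : IsMod H A)
    (hAN : Disjoint A N) (hPA : P ⊆ A) (hQA : Q ⊆ A)
    (hPn : P.Nonempty) (hQn : Q.Nonempty) : Ind H A (Sset H P Q N) := by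
  classical
  intro a ha z hz w hw hzw hH
  obtain ⟨x, hx⟩ := hPn
  obtain ⟨y, hy⟩ := hQn
  have hzN : z ∈ N := (mem_filter.1 hz).1
  have hwN : w ∈ N := (mem_filter.1 hw).1
  have hzA : z ∉ A := fun h' => disjoint_left.1 hAN h' hzN
  have hwA : w ∉ A := fun h' => disjoint_left.1 hAN h' hwN
  have nxz : x ≠ z := fun h' => hzA (h' ▸ hPA hx)
  have nxw : x ≠ w := fun h' => hwA (h' ▸ hPA hx)
  have nyz : y ≠ z := fun h' => hzA (h' ▸ hQA hy)
  have nyw : y ≠ w := fun h' => hwA (h' ▸ hQA hy)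
  have nxy : x ≠ y := fun h' => disjoint_left.1 hPQ hx (h' ▸ hy)
  exact hF x y z w nxy nxz nxw nyz nyw hzw (Sset_all hPQ hN hP hQ hz hx hy)
    (Sset_all hPQ hN hP hQ hw hx hy)
    (hA a ha x (hPA hx) z hzA w hwA hzw hH) (hA a ha y (hQA hy) z hzA w hwA hzw hH)

end Pool.Agent.Helper72_TT
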