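import Pool.Agent.Helper72_TT.Step

set_option autoImplicit false
open Finset

namespace Pool.Agent.Helper72_TT

variable {V : Type} [DecidableEq V] {H : Finset (Finset V)}

/-- integrated form of `pointwise` on the interval from `b` to `a + b` -/
theorem step_interval {a b c D s : ℝ} (ha : 0 ≤ a) (hb : 0 ≤ b) (hc : 0 ≤ c) (hD : 0 ≤ D)
    (hs : s ≤ D) :
    a * c * s / 2 + c * ((a + b) ^ 2 - b ^ 2) / 4 +
      K (max 0 (max (D - c) (c + min D (-s)))) (a + b) -
      K (max 0 (max (D - c) (c + min D (-s)))) b ≤ K D (a + b + c) - K D (b + c) := by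
  have hpw := fun x (hx : 0 ≤ x) => pointwise (q := c) (x := x) (D := D) (s := s) hc hx hD hs
  generalize max 0 (max (D - c) (c + min D (-s))) = D' at hpw ⊢
  have h1 : ∀ t : ℝ, HasDerivAt (fun y => K D (y + (b + c))) (k D (t + (b + c))) t := fun t =>
    (hasDerivAt_K D (t + (b + c))).comp_add_const t (b + c)
  have h1' : ∀ t : ℝ, HasDerivAt (fun y => K D' (y + b)) (k D' (t + b)) t := fun t =>
    (hasDerivAt_K D' (t + b)).comp_add_const t b
  have h2 : ∀ t : ℝ, HasDerivAt (fun y : ℝ => y * c * s / 2 + c * ((y + b) ^ 2 - b ^ 2) / 4)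
      (c * s / 2 + c * (t + b) / 2) t := by
    intro t
    have a1 : HasDerivAt (fun y : ℝ => y * c * s / 2) (c * s / 2) t := by
      have := (((hasDerivAt_id t).mul_const c).mul_const s).div_const 2
      simpa using this
    have a2 : HasDerivAt (fun y : ℝ => c * ((y + b) ^ 2 - b ^ 2) / 4) (c * (t + b) / 2) t := by
      have := (((((hasDerivAt_id t).add_const b).pow 2).sub_const (b ^ 2)).const_mul c).div_const 4
      have e : c * (2 * (t + b) ^ (2 - 1) * 1) / 4 = c * (t + b) / 2 := by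
        norm_num
        ring
      rw [← e]
      simpa using this
    exact a1.add a2
  have h := nonneg_of_deriv
    (f := fun t => K D (t + (b + c)) - ((t * c * s / 2 + c * ((t + b) ^ 2 - b ^ 2) / 4) +
      K D' (t + b)) - (K D (b + c) - K D' b))
    (f' := fun t => k D (t + (b + c)) - ((c * s / 2 + c * (t + b) / 2) + k D' (t + b)))
    (fun t => ((h1 t).sub ((h2 t).add (h1' t))).sub_const _)
    (by simp)
    (fun t ht => by
      have := hpw (t + b) (by linarith)
      have e : c + (t + b) = t + (b + c) := by ring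
      rw [e] at this
      linarith) ha
  have e : a + (b + c) = a + b + c := by ring
  rw [e] at h
  linarith

theorem re1 {A B C N : Finset V} {a : V} (h : a ∈ A ∪ B ∪ C ∪ N) : a ∈ A ∪ (N ∪ C ∪ B) := by
  simp only [mem_union] at h ⊢
  tauto

theorem re2 {A B C N : Finset V} {a : V} (h : a ∈ A ∪ B ∪ C ∪ N) (h' : a ∉ A) :
    a ∈ B ∪ (N ∪ C) := by
  simp only [mem_union] at h ⊢
  tauto

theorem re3 {A B C N : Finset V} {a : V} (h : a ∈ A ∪ B ∪ C ∪ N) (h' : a ∉ A) (h'' : a ∉ B) :
    a ∈ C ∪ N := by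
  simp only [mem_union] at h ⊢
  tauto

theorem re4 {A B C N : Finset V} {a : V} (h : a ∈ A ∪ B ∪ C ∪ N) (h' : a ∉ N) :
    a ∈ A ∪ B ∪ C := by
  simp only [mem_union] at h ⊢
  tauto

theorem re5 {X Y Z N : Finset V} {a : V} (h : a ∈ X ∨ a ∈ Y ∨ a ∈ Z ∨ a ∈ N) (h' : a ∉ Z) :
    a ∈ X ∪ Y ∪ N := by
  simp only [mem_union]
  tauto

theorem val_trans_subset (h3 : ∀ e ∈ H, e.card = 3) {A B C N : Finset V} (hAB : Disjoint A B)
    (hBC : Disjoint B C) (hAC : Disjoint A C) (hN : Disjoint (A ∪ B ∪ C) N)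
    (h1 : Arrow H A B) (h2 : Arrow H A C) (h4 : Arrow H B C)
    (hT : ∀ x ∈ A, ∀ y ∈ B, ∀ w ∈ C, ({x, y, w} : Finset V) ∉ H) :
    val H (A ∪ B ∪ C) N ⊆ val H A (N ∪ C ∪ B) ∪ val H B (N ∪ C) ∪ val H C N ∪
      Tr A B (Sset H A B N) ∪ Tr A C (Sset H A C N) ∪ Tr B C (Sset H B C N) := by
  classical
  intro e he
  unfold val at he
  rw [mem_filter] at he
  obtain ⟨heH, hsub, h5⟩ := he
  have he3 := h3 e heH
  have hABC : Disjoint (A ∪ B) C := disjoint_union_left.2 ⟨hAC, hBC⟩
  have hc := card_split hsub hABC hN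
  have hab : (e ∩ (A ∪ B)).card = (e ∩ A).card + (e ∩ B).card := by
    rw [inter_union_distrib_left]
    exact card_union_of_disjoint (hAB.mono inter_subset_right inter_subset_right)
  have habc : (e ∩ (A ∪ B ∪ C)).card = (e ∩ (A ∪ B)).card + (e ∩ C).card := by
    rw [inter_union_distrib_left]
    exact card_union_of_disjoint (hABC.mono inter_subset_right inter_subset_right)
  rw [hab] at hc habc
  rw [habc] at h5
  rw [he3] at hc
  have zero_not : ∀ X : Finset V, (e ∩ X).card = 0 → ∀ a ∈ e, a ∉ X := by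
    intro X hX a ha h
    rw [card_eq_zero] at hX
    exact absurd (mem_inter.2 ⟨ha, h⟩) (hX ▸ notMem_empty a)
  have intr : ∀ X Y Z : Finset V, (∀ a, a ∈ A ∪ B ∪ C ∪ N → a ∈ X ∨ a ∈ Y ∨ a ∈ Z ∨ a ∈ N) →
      (e ∩ X).card = 1 → (e ∩ Y).card = 1 → (e ∩ N).card = 1 → (e ∩ Z).card = 0 →
      e ∈ Tr X Y (Sset H X Y N) := by
    intro X Y Z hcov hX hY hN' hZ
    have hs : e ⊆ X ∪ Y ∪ N := fun a ha => re5 (hcov a (hsub ha)) (zero_not Z hZ a ha)
    obtain ⟨x, hx, y, hy, z, hz, hxyz⟩ := eq_of_one hs hX hY hN'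
    unfold Tr
    rw [mem_image]
    refine ⟨(x, y, z), ?_, hxyz.symm⟩
    simp only [mem_product]
    refine ⟨hx, hy, ?_⟩
    unfold Sset
    rw [mem_filter]
    exact ⟨hz, x, hx, y, hy, hxyz ▸ heH⟩
  have n1 : ¬ ((e ∩ A).card = 1 ∧ (e ∩ B).card = 2) := fun h =>
    not_one_two h1 heH he3 hAB h.1 h.2
  have n2 : ¬ ((e ∩ A).card = 1 ∧ (e ∩ C).card = 2) := fun h =>
    not_one_two h2 heH he3 hAC h.1 h.2
  have n3 : ¬ ((e ∩ B).card = 1 ∧ (e ∩ C).card = 2) := fun h =>
    not_one_two h4 heH he3 hBC h.1 h.2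
  have n4 : ¬ ((e ∩ A).card = 1 ∧ (e ∩ B).card = 1 ∧ (e ∩ C).card = 1) := by
    rintro ⟨g1, g2, g3⟩
    have hN0 : (e ∩ N).card = 0 := by omega
    have hs : e ⊆ A ∪ B ∪ C := fun a ha => re4 (hsub ha) (zero_not N hN0 a ha)
    obtain ⟨x, hx, y, hy, z, hz, hxyz⟩ := eq_of_one hs g1 g2 g3
    exact hT x hx y hy z hz (hxyz ▸ heH)
  have cov1 : ∀ a, a ∈ A ∪ B ∪ C ∪ N → a ∈ A ∨ a ∈ B ∨ a ∈ C ∨ a ∈ N := by
    clear n1 n2 n3 n4 intr zero_not
    intro a ha; simp only [mem_union] at ha; tauto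
  have cov2 : ∀ a, a ∈ A ∪ B ∪ C ∪ N → a ∈ A ∨ a ∈ C ∨ a ∈ B ∨ a ∈ N := by
    clear n1 n2 n3 n4 intr zero_not
    intro a ha; simp only [mem_union] at ha; tauto
  have cov3 : ∀ a, a ∈ A ∪ B ∪ C ∪ N → a ∈ B ∨ a ∈ C ∨ a ∈ A ∨ a ∈ N := by
    clear n1 n2 n3 n4 intr zero_not
    intro a ha; simp only [mem_union] at ha; tauto
  simp only [mem_union]
  by_cases hA2 : 2 ≤ (e ∩ A).card
  · left; left; left; left; left
    unfold val
    rw [mem_filter]
    refine ⟨heH, ?_, hA2⟩
    exact fun a ha => re1 (hsub ha)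
  · by_cases hB2 : 2 ≤ (e ∩ B).card
    · left; left; left; left; right
      unfold val
      rw [mem_filter]
      refine ⟨heH, ?_, hB2⟩
      have hA0 : (e ∩ A).card = 0 := by omega
      exact fun a ha => re2 (hsub ha) (zero_not A hA0 a ha)
    · by_cases hC2 : 2 ≤ (e ∩ C).card
      · left; left; left; right
        unfold val
        rw [mem_filter]
        refine ⟨heH, ?_, hC2⟩
        have hA0 : (e ∩ A).card = 0 := by omega
        have hB0 : (e ∩ B).card = 0 := by omega
        exact fun a ha => re3 (hsub ha) (zero_not A hA0 a ha) (zero_not B hB0 a ha)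
      · by_cases hA0 : (e ∩ A).card = 0
        · right
          exact intr B C A cov3
            (by omega) (by omega) (by omega) hA0
        · by_cases hB0 : (e ∩ B).card = 0
          · left; right
            exact intr A C B cov2
              (by omega) (by omega) (by omega) hB0
          · left; left; right
            exact intr A B C cov1
              (by omega) (by omega) (by omega) (by omega)

/-- the transitive case without transversal edges -/
theorem claim_trans0 (h3 : ∀ e ∈ H, e.card = 3) (hF : Free H) {A B C : Finset V}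
    (hAB : Disjoint A B) (hBC : Disjoint B C) (hAC : Disjoint A C)
    (hAn : A.Nonempty) (hBn : B.Nonempty) (hCn : C.Nonempty)
    (hA : IsMod H A) (hB : IsMod H B) (hC : IsMod H C) (hW : IsMod H (A ∪ B ∪ C))
    (h1 : Arrow H A B) (h2 : Arrow H A C) (h4 : Arrow H B C)
    (hT : ∀ x ∈ A, ∀ y ∈ B, ∀ w ∈ C, ({x, y, w} : Finset V) ∉ H)
    (cA : Claim H A) (cB : Claim H B) (cC : Claim H C) : Claim H (A ∪ B ∪ C) := by
  classical
  intro N D hWN hD hDN hI
  have hABC : Disjoint (A ∪ B) C := disjoint_union_left.2 ⟨hAC, hBC⟩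
  have hc : ((A ∪ B ∪ C).card : ℝ) = A.card + B.card + C.card := by
    rw [card_union_of_disjoint hABC, card_union_of_disjoint hAB]; push_cast; ring
  have sA : A ⊆ A ∪ B ∪ C := subset_union_left.trans subset_union_left
  have sB : B ⊆ A ∪ B ∪ C := subset_union_right.trans subset_union_left
  have sC : C ⊆ A ∪ B ∪ C := subset_union_right
  have hAN : Disjoint A N := hWN.mono_left sA
  have hBN : Disjoint B N := hWN.mono_left sB
  have hCN : Disjoint C N := hWN.mono_left sC
  have pa : (0 : ℝ) ≤ A.card := Nat.cast_nonneg _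
  have pb : (0 : ℝ) ≤ B.card := Nat.cast_nonneg _
  have pc : (0 : ℝ) ≤ C.card := Nat.cast_nonneg _
  have pN : (0 : ℝ) ≤ N.card := Nat.cast_nonneg _
  -- child B
  obtain ⟨b1, b2⟩ := state_bound hF hBC hB hC hW hWN sB sC hBn hCn hD hDN hI cB
  -- child C
  have c2 := cC N D hCN hD hDN
    (fun I hIN hInd => hI I hIN (ind_sub hW (hWN.mono_right hIN) sC hCn hInd))
  -- child A, first step
  have i1 := ind_bound (D := D) hAC (disjoint_union_left.2 ⟨hAN, hCN⟩) hA hC hW hWN sA hAn hI
  have s1 : 2 * ((Sset H A C N).card : ℝ) - N.card ≤ D := by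
    have := hI (Sset H A C N) (filter_subset _ _)
      (Sset_ind hF hAC (disjoint_union_left.2 ⟨hAN, hCN⟩) hA hC hW hWN sA sC hAn hCn)
    linarith
  have s2 : 2 * ((Sset H A B N).card : ℝ) - N.card ≤ D := by
    have := hI (Sset H A B N) (filter_subset _ _)
      (Sset_ind hF hAB (disjoint_union_left.2 ⟨hAN, hBN⟩) hA hB hW hWN sA sB hAn hBn)
    linarith
  have hS2 : Sset H A B (N ∪ C) = Sset H A B N := by
    unfold Sset
    ext z
    simp only [mem_filter, mem_union]
    constructor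
    · rintro ⟨hz | hz, x, hx, y, hy, h⟩
      · exact ⟨hz, x, hx, y, hy, h⟩
      · exact absurd h (hT x hx y hy z hz)
    · rintro ⟨hz, h⟩
      exact ⟨Or.inl hz, h⟩
  have hANC : Disjoint A (N ∪ C) := disjoint_union_right.2 ⟨hAN, hAC⟩
  have hBNC : Disjoint B (N ∪ C) := disjoint_union_right.2 ⟨hBN, hBC⟩
  have i2 := ind_bound hAB (disjoint_union_left.2 ⟨hANC, hBNC⟩) hA hB hA hANC
    (Subset.refl A) hAn i1
  have cNC : ((N ∪ C).card : ℝ) = N.card + C.card := by
    rw [card_union_of_disjoint hCN.symm]; push_cast; ring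
  have cNCB : ((N ∪ C ∪ B).card : ℝ) = N.card + C.card + B.card := by
    rw [card_union_of_disjoint hBNC.symm]; push_cast; rw [cNC]
  rw [hS2] at i2
  have hD1le : max 0 (max (D - (C.card : ℝ)) (C.card +
      min D (-(2 * ((Sset H A C N).card : ℝ) - N.card)))) ≤ (N ∪ C).card := by
    rw [cNC]
    have : min D (-(2 * ((Sset H A C N).card : ℝ) - N.card)) ≤ D := min_le_left _ _
    exact max_le (by positivity) (max_le (by linarith) (by linarith))
  have hD1ge : D - C.card ≤ max 0 (max (D - (C.card : ℝ)) (C.card +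
      min D (-(2 * ((Sset H A C N).card : ℝ) - N.card)))) :=
    (le_max_left _ _).trans (le_max_right _ _)
  have gi := step_interval (a := A.card) (b := B.card) (c := C.card) (D := D)
    (s := 2 * ((Sset H A C N).card : ℝ) - N.card) pa pb pc hD s1
  have hD10 : (0 : ℝ) ≤ max 0 (max (D - (C.card : ℝ)) (C.card +
      min D (-(2 * ((Sset H A C N).card : ℝ) - N.card)))) := le_max_left _ _
  generalize max 0 (max (D - (C.card : ℝ)) (C.card +
      min D (-(2 * ((Sset H A C N).card : ℝ) - N.card)))) = D1 at *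
  have a2 := cA (N ∪ C ∪ B) _ (disjoint_union_right.2 ⟨hANC, hAB⟩) (le_max_left 0 _) (by
      rw [cNCB]
      have : min D1 (-(2 * ((Sset H A B N).card : ℝ) - (N ∪ C).card)) ≤ D1 := min_le_left _ _
      rw [cNC] at hD1le
      exact max_le (by positivity) (max_le (by linarith) (by linarith))) i2
  have g2 := step_two (p := A.card) (q := B.card) (D := D1)
    (s := 2 * ((Sset H A B N).card : ℝ) - (N ∪ C).card) pa pb hD10 (by rw [cNC]; linarith)
  have g3 := step_two (p := B.card) (q := C.card) (D := D)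
    (s := 2 * ((Sset H B C N).card : ℝ) - N.card) pb pc hD b1
  have hcard := card_le_card (val_trans_subset h3 hAB hBC hAC hWN h1 h2 h4 hT)
  have u2 := card_union_le (val H A (N ∪ C ∪ B) ∪ val H B (N ∪ C) ∪ val H C N ∪
      Tr A B (Sset H A B N) ∪ Tr A C (Sset H A C N)) (Tr B C (Sset H B C N))
  have u3 := card_union_le (val H A (N ∪ C ∪ B) ∪ val H B (N ∪ C) ∪ val H C N ∪
      Tr A B (Sset H A B N)) (Tr A C (Sset H A C N))
  have u4 := card_union_le (val H A (N ∪ C ∪ B) ∪ val H B (N ∪ C) ∪ val H C N)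
    (Tr A B (Sset H A B N))
  have u5 := card_union_le (val H A (N ∪ C ∪ B) ∪ val H B (N ∪ C)) (val H C N)
  have u6 := card_union_le (val H A (N ∪ C ∪ B)) (val H B (N ∪ C))
  have t1 := card_Tr_le A B (Sset H A B N)
  have t2 := card_Tr_le A C (Sset H A C N)
  have t3 := card_Tr_le B C (Sset H B C N)
  have tot : (val H (A ∪ B ∪ C) N).card ≤ (val H A (N ∪ C ∪ B)).card +
      (val H B (N ∪ C)).card + (val H C N).card + A.card * B.card * (Sset H A B N).card +
      A.card * C.card * (Sset H A C N).card + B.card * C.card * (Sset H B C N).card := by omega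
  have totR : ((val H (A ∪ B ∪ C) N).card : ℝ) ≤ (val H A (N ∪ C ∪ B)).card +
      (val H B (N ∪ C)).card + (val H C N).card + A.card * B.card * (Sset H A B N).card +
      A.card * C.card * (Sset H A C N).card + B.card * C.card * (Sset H B C N).card := by
    exact_mod_cast tot
  rw [hc]
  rw [cNCB] at a2
  have a3 := a2.trans (add_le_add_right (sub_nonneg.1 (by linarith only [g2] :
    0 ≤ (K D1 (A.card + B.card) - K D1 B.card - A.card * B.card *
      (2 * ((Sset H A B N).card : ℝ) - (N ∪ C).card) / 2 - B.card * (A.card : ℝ) ^ 2 / 4) -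
      K (max 0 (max (D1 - (B.card : ℝ)) (B.card +
        min D1 (-(2 * ((Sset H A B N).card : ℝ) - (N ∪ C).card))))) A.card)) _)
  have b3 := b2.trans (add_le_add_right (sub_nonneg.1 (by linarith only [g3] :
    0 ≤ (K D (B.card + C.card) - K D C.card - B.card * C.card *
      (2 * ((Sset H B C N).card : ℝ) - N.card) / 2 - C.card * (B.card : ℝ) ^ 2 / 4) -
      K (max 0 (max (D - (C.card : ℝ)) (C.card +
        min D (-(2 * ((Sset H B C N).card : ℝ) - N.card))))) B.card)) _)
  rw [cNC] at a3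
  clear a2 b2 g2 g3
  generalize K D1 ((A.card : ℝ) + B.card) = k1 at *
  generalize K D1 (B.card : ℝ) = k2 at *
  generalize K D ((A.card : ℝ) + B.card + C.card) = k3 at *
  generalize K D ((B.card : ℝ) + C.card) = k4 at *
  generalize K D (C.card : ℝ) = k5 at *
  linarith only [totR, a3, b3, c2, gi]

end Pool.Agent.Helper72_TT
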