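import Pool.Agent.Helper72_TT.Defs

set_option autoImplicit false
set_option linter.unusedVariables false

namespace Pool.Agent.Helper72_TT.TE


/-- The derivative in `D` of `K`: for `x ≤ E` it is `x^2/4`, for `E ≤ x ≤ 9*E` it is
`x^2/4 - 9/32*(x-E)^2`, for `9*E ≤ x` it is `9/4*E^2`. -/
noncomputable def N (E x : ℝ) : ℝ :=
  x ^ 2 / 4 - 9 / 32 * (max (x - E) 0) ^ 2 + 1 / 32 * (max (x - 9 * E) 0) ^ 2

theorem pos_cube (u : ℝ) :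
    HasDerivAt (fun x : ℝ => (max x 0) ^ 3) (3 * (max u 0) ^ 2) u := by
  rcases lt_trichotomy u 0 with h | h | h
  · have h1 : (fun x : ℝ => (max x 0) ^ 3) =ᶠ[nhds u] fun _ => (0 : ℝ) := by
      filter_upwards [Iio_mem_nhds h] with x hx
      rw [max_eq_right (le_of_lt hx)]
      norm_num
    have h2 : (3 : ℝ) * (max u 0) ^ 2 = 0 := by
      rw [max_eq_right h.le]
      norm_num
    rw [h2]
    exact (hasDerivAt_const u (0 : ℝ)).congr_of_eventuallyEq h1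
  · subst h
    have h2 : (3 : ℝ) * (max 0 0) ^ 2 = 0 := by norm_num
    rw [h2, hasDerivAt_iff_isLittleO]
    have h3 : (fun x : ℝ => (max x 0) ^ 3 - (max 0 0) ^ 3 - (x - 0) • (0 : ℝ)) =O[nhds 0]
        fun x : ℝ => x ^ 3 := by
      refine Asymptotics.IsBigO.of_bound 1 (Filter.Eventually.of_forall fun x => ?_)
      have h4 : (max x 0) ^ 3 - (max 0 0) ^ 3 - (x - 0) • (0 : ℝ) = (max x 0) ^ 3 := by
        simp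
      rw [h4, one_mul, norm_pow, norm_pow]
      refine pow_le_pow_left₀ (norm_nonneg _) ?_ 3
      rw [Real.norm_eq_abs, Real.norm_eq_abs]
      rcases le_total x 0 with hx | hx
      · rw [max_eq_right hx, abs_zero]
        exact abs_nonneg _
      · rw [max_eq_left hx]
    have h5 : (fun x : ℝ => x ^ 3) =o[nhds 0] fun x : ℝ => x - 0 := by
      simpa using Asymptotics.isLittleO_pow_id (𝕜 := ℝ) (n := 3) (by norm_num)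
    exact h3.trans_isLittleO h5
  · have h1 : (fun x : ℝ => (max x 0) ^ 3) =ᶠ[nhds u] fun x => x ^ 3 := by
      filter_upwards [Ioi_mem_nhds h] with x hx
      rw [max_eq_left (le_of_lt hx)]
    rw [max_eq_left h.le]
    have h2 := hasDerivAt_pow 3 u
    exact (by simpa using h2 : HasDerivAt (fun x : ℝ => x ^ 3) (3 * u ^ 2) u).congr_of_eventuallyEq h1

theorem hasDerivAt_K_left (D x : ℝ) : HasDerivAt (fun E => K E x) (N D x) D := by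
  unfold K N
  have h1 : HasDerivAt (fun E : ℝ => x - E) (-1) D := by
    simpa using (hasDerivAt_id D).const_sub x
  have h2 : HasDerivAt (fun E : ℝ => x - 9 * E) (-9) D := by
    simpa using ((hasDerivAt_id D).const_mul 9).const_sub x
  have h3 : HasDerivAt (fun E : ℝ => (max (x - E) 0) ^ 3) (3 * (max (x - D) 0) ^ 2 * (-1)) D :=
    HasDerivAt.comp D (h₂ := fun y : ℝ => (max y 0) ^ 3) (h := fun E : ℝ => x - E)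
      (pos_cube (x - D)) h1
  have h4 : HasDerivAt (fun E : ℝ => (max (x - 9 * E) 0) ^ 3)
      (3 * (max (x - 9 * D) 0) ^ 2 * (-9)) D :=
    HasDerivAt.comp D (h₂ := fun y : ℝ => (max y 0) ^ 3) (h := fun E : ℝ => x - 9 * E)
      (pos_cube (x - 9 * D)) h2
  have h5 : HasDerivAt (fun E : ℝ => E * x ^ 2 / 4) (x ^ 2 / 4) D := by
    simpa using ((hasDerivAt_id D).mul_const (x ^ 2)).div_const 4
  have h6 : HasDerivAt (fun E : ℝ => E * x ^ 2 / 4 + 3 / 32 * (max (x - E) 0) ^ 3 -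
      1 / 864 * (max (x - 9 * E) 0) ^ 3) (x ^ 2 / 4 + 3 / 32 * (3 * (max (x - D) 0) ^ 2 * (-1)) -
      1 / 864 * (3 * (max (x - 9 * D) 0) ^ 2 * (-9))) D :=
    (h5.add (h3.const_mul (3 / 32))).sub (h4.const_mul (1 / 864))
  exact h6.congr_deriv (by ring)

theorem c112 (a b c D : ℝ) (h0 : 0 ≤ a) (h1 : 0 ≤ b) (h2 : 0 ≤ c) (h3 : 0 ≤ D) (h4 : 0 ≤ D+a-c) (h5 : 0 ≤ D+b-a) (h6 : 0 ≤ D+c-b) (h7 : 0 ≤ a+b+c-D) (h8 : 0 ≤ 9*D-(a+b+c)) :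
    a^2/4 + b^2/4 + c^2/4 ≤ (a*b+b*c+c*a)/2 + ((a+b+c)^2/4-9/32*(a+b+c-D)^2) := by
  linarith [mul_nonneg h0 h0, mul_nonneg h0 h1, mul_nonneg h0 h2, mul_nonneg h0 h3, mul_nonneg h0 h4, mul_nonneg h0 h5, mul_nonneg h0 h6, mul_nonneg h0 h7, mul_nonneg h0 h8, mul_nonneg h1 h1, mul_nonneg h1 h2, mul_nonneg h1 h3, mul_nonneg h1 h4, mul_nonneg h1 h5, mul_nonneg h1 h6, mul_nonneg h1 h7, mul_nonneg h1 h8, mul_nonneg h2 h2, mul_nonneg h2 h3, mul_nonneg h2 h4, mul_nonneg h2 h5, mul_nonneg h2 h6, mul_nonneg h2 h7, mul_nonneg h2 h8, mul_nonneg h3 h3, mul_nonneg h3 h4, mul_nonneg h3 h5, mul_nonneg h3 h6, mul_nonneg h3 h7, mul_nonneg h3 h8, mul_nonneg h4 h4, mul_nonneg h4 h5, mul_nonneg h4 h6, mul_nonneg h4 h7, mul_nonneg h4 h8, mul_nonneg h5 h5, mul_nonneg h5 h6, mul_nonneg h5 h7, mul_nonneg h5 h8, mul_nonneg h6 h6, mul_nonneg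 h6 h7, mul_nonneg h6 h8, mul_nonneg h7 h7, mul_nonneg h7 h8, mul_nonneg h8 h8, sq_nonneg (a-9*D-b), sq_nonneg (b-9*D-c), sq_nonneg (a+b+c-9*D), sq_nonneg (a-b), sq_nonneg (b-c), sq_nonneg (a-c), sq_nonneg (a-b-D), sq_nonneg (a-9*D), sq_nonneg (b-9*D), sq_nonneg (a-9*b), sq_nonneg (a-2*b), sq_nonneg (a-3*b), sq_nonneg (a-9*D-b-c), sq_nonneg (a-D-2*b)]

theorem c113 (a b c D : ℝ) (h0 : 0 ≤ a) (h1 : 0 ≤ b) (h2 : 0 ≤ c) (h3 : 0 ≤ D) (h4 : 0 ≤ D+a-c) (h5 : 0 ≤ D+b-a) (h6 : 0 ≤ D+c-b) (h7 : 0 ≤ a+b+c-9*D) :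
    a^2/4 + b^2/4 + c^2/4 ≤ (a*b+b*c+c*a)/2 + 9/4*D^2 := by
  linarith [mul_nonneg h0 h0, mul_nonneg h0 h1, mul_nonneg h0 h2, mul_nonneg h0 h3, mul_nonneg h0 h4, mul_nonneg h0 h5, mul_nonneg h0 h6, mul_nonneg h0 h7, mul_nonneg h1 h1, mul_nonneg h1 h2, mul_nonneg h1 h3, mul_nonneg h1 h4, mul_nonneg h1 h5, mul_nonneg h1 h6, mul_nonneg h1 h7, mul_nonneg h2 h2, mul_nonneg h2 h3, mul_nonneg h2 h4, mul_nonneg h2 h5, mul_nonneg h2 h6, mul_nonneg h2 h7, mul_nonneg h3 h3, mul_nonneg h3 h4, mul_nonneg h3 h5, mul_nonneg h3 h6, mul_nonneg h3 h7, mul_nonneg h4 h4, mul_nonneg h4 h5, mul_nonneg h4 h6, mul_nonneg h4 h7, mul_nonneg h5 h5, mul_nonneg h5 h6, mul_nonneg h5 h7, mul_nonneg h6 h6, mul_nonneg h6 h7, mul_nonneg h7 h7, sq_nonneg (a-9*D-b), sq_nonneg (b-9*D-c), sq_nonneg (a+b+c-9*D), sq_nonneg (a-b), sq_nonneg (b-c), sq_nonneg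 (a-c), sq_nonneg (a-b-D), sq_nonneg (a-9*D), sq_nonneg (b-9*D), sq_nonneg (a-9*b), sq_nonneg (a-2*b), sq_nonneg (a-3*b), sq_nonneg (a-9*D-b-c), sq_nonneg (a-D-2*b)]

theorem c122 (a b c D : ℝ) (h0 : 0 ≤ a) (h1 : 0 ≤ b) (h2 : 0 ≤ c) (h3 : 0 ≤ D) (h4 : 0 ≤ D+a-c) (h5 : 0 ≤ D+b-a) (h6 : 0 ≤ b-(D+c)) (h7 : 0 ≤ 9*(D+c)-b) (h8 : 0 ≤ a+b+c-D) (h9 : 0 ≤ 9*D-(a+b+c)) :
    a^2/4 + (b^2/4-9/32*(b-(D+c))^2) + c^2/4 ≤ (a*b+b*c+c*a)/2 + ((a+b+c)^2/4-9/32*(a+b+c-D)^2) := by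
  linarith [mul_nonneg h0 h0, mul_nonneg h0 h1, mul_nonneg h0 h2, mul_nonneg h0 h3, mul_nonneg h0 h4, mul_nonneg h0 h5, mul_nonneg h0 h6, mul_nonneg h0 h7, mul_nonneg h0 h8, mul_nonneg h0 h9, mul_nonneg h1 h1, mul_nonneg h1 h2, mul_nonneg h1 h3, mul_nonneg h1 h4, mul_nonneg h1 h5, mul_nonneg h1 h6, mul_nonneg h1 h7, mul_nonneg h1 h8, mul_nonneg h1 h9, mul_nonneg h2 h2, mul_nonneg h2 h3, mul_nonneg h2 h4, mul_nonneg h2 h5, mul_nonneg h2 h6, mul_nonneg h2 h7, mul_nonneg h2 h8, mul_nonneg h2 h9, mul_nonneg h3 h3, mul_nonneg h3 h4, mul_nonneg h3 h5, mul_nonneg h3 h6, mul_nonneg h3 h7, mul_nonneg h3 h8, mul_nonneg h3 h9, mul_nonneg h4 h4, mul_nonneg h4 h5, mul_nonneg h4 h6, mul_nonneg h4 h7, mul_nonneg h4 h8, mul_nonneg h4 h9, mul_nonneg h5 h5, mul_nonneg h5 h6, mul_nonneg h5 h7, mul_nonneg h5 h8, mul_nonneg h5 h9, mul_nonneg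 h6 h6, mul_nonneg h6 h7, mul_nonneg h6 h8, mul_nonneg h6 h9, mul_nonneg h7 h7, mul_nonneg h7 h8, mul_nonneg h7 h9, mul_nonneg h8 h8, mul_nonneg h8 h9, mul_nonneg h9 h9, sq_nonneg (a-9*D-b), sq_nonneg (b-9*D-c), sq_nonneg (a+b+c-9*D), sq_nonneg (a-b), sq_nonneg (b-c), sq_nonneg (a-c), sq_nonneg (a-b-D), sq_nonneg (a-9*D), sq_nonneg (b-9*D), sq_nonneg (a-9*b), sq_nonneg (a-2*b), sq_nonneg (a-3*b), sq_nonneg (a-9*D-b-c), sq_nonneg (a-D-2*b)]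

theorem c123 (a b c D : ℝ) (h0 : 0 ≤ a) (h1 : 0 ≤ b) (h2 : 0 ≤ c) (h3 : 0 ≤ D) (h4 : 0 ≤ D+a-c) (h5 : 0 ≤ D+b-a) (h6 : 0 ≤ b-(D+c)) (h7 : 0 ≤ 9*(D+c)-b) (h8 : 0 ≤ a+b+c-9*D) :
    a^2/4 + (b^2/4-9/32*(b-(D+c))^2) + c^2/4 ≤ (a*b+b*c+c*a)/2 + 9/4*D^2 := by
  linarith [mul_nonneg h0 h0, mul_nonneg h0 h1, mul_nonneg h0 h2, mul_nonneg h0 h3, mul_nonneg h0 h4, mul_nonneg h0 h5, mul_nonneg h0 h6, mul_nonneg h0 h7, mul_nonneg h0 h8, mul_nonneg h1 h1, mul_nonneg h1 h2, mul_nonneg h1 h3, mul_nonneg h1 h4, mul_nonneg h1 h5, mul_nonneg h1 h6, mul_nonneg h1 h7, mul_nonneg h1 h8, mul_nonneg h2 h2, mul_nonneg h2 h3, mul_nonneg h2 h4, mul_nonneg h2 h5, mul_nonneg h2 h6, mul_nonneg h2 h7, mul_nonneg h2 h8, mul_nonneg h3 h3, mul_nonneg h3 h4, mul_nonneg h3 h5, mul_nonneg h3 h6, mul_nonneg h3 h7, mul_nonneg h3 h8, mul_nonneg h4 h4,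 mul_nonneg h4 h5, mul_nonneg h4 h6, mul_nonneg h4 h7, mul_nonneg h4 h8, mul_nonneg h5 h5, mul_nonneg h5 h6, mul_nonneg h5 h7, mul_nonneg h5 h8, mul_nonneg h6 h6, mul_nonneg h6 h7, mul_nonneg h6 h8, mul_nonneg h7 h7, mul_nonneg h7 h8, mul_nonneg h8 h8, sq_nonneg (a-9*D-b), sq_nonneg (b-9*D-c), sq_nonneg (a+b+c-9*D), sq_nonneg (a-b), sq_nonneg (b-c), sq_nonneg (a-c), sq_nonneg (a-b-D), sq_nonneg (a-9*D), sq_nonneg (b-9*D), sq_nonneg (a-9*b), sq_nonneg (a-2*b), sq_nonneg (a-3*b), sq_nonneg (a-9*D-b-c), sq_nonneg (a-D-2*b)]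

theorem c132 (a b c D : ℝ) (h0 : 0 ≤ a) (h1 : 0 ≤ b) (h2 : 0 ≤ c) (h3 : 0 ≤ D) (h4 : 0 ≤ D+a-c) (h5 : 0 ≤ D+b-a) (h6 : 0 ≤ b-9*(D+c)) (h7 : 0 ≤ a+b+c-D) (h8 : 0 ≤ 9*D-(a+b+c)) :
    a^2/4 + 9/4*(D+c)^2 + c^2/4 ≤ (a*b+b*c+c*a)/2 + ((a+b+c)^2/4-9/32*(a+b+c-D)^2) := by
  linarith [mul_nonneg h0 h0, mul_nonneg h0 h1, mul_nonneg h0 h2, mul_nonneg h0 h3, mul_nonneg h0 h4, mul_nonneg h0 h5, mul_nonneg h0 h6, mul_nonneg h0 h7, mul_nonneg h0 h8, mul_nonneg h1 h1, mul_nonneg h1 h2, mul_nonneg h1 h3, mul_nonneg h1 h4, mul_nonneg h1 h5, mul_nonneg h1 h6, mul_nonneg h1 h7, mul_nonneg h1 h8, mul_nonneg h2 h2, mul_nonneg h2 h3, mul_nonneg h2 h4, mul_nonneg h2 h5, mul_nonneg h2 h6, mul_nonneg h2 h7, mul_nonneg h2 h8, mul_nonneg h3 h3, mul_nonneg h3 h4, mul_nonneg h3 h5, mul_nonneg h3 h6, mul_nonneg h3 h7, mul_nonneg h3 h8, mul_nonneg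 h4 h4, mul_nonneg h4 h5, mul_nonneg h4 h6, mul_nonneg h4 h7, mul_nonneg h4 h8, mul_nonneg h5 h5, mul_nonneg h5 h6, mul_nonneg h5 h7, mul_nonneg h5 h8, mul_nonneg h6 h6, mul_nonneg h6 h7, mul_nonneg h6 h8, mul_nonneg h7 h7, mul_nonneg h7 h8, mul_nonneg h8 h8, sq_nonneg (a-9*D-b), sq_nonneg (b-9*D-c), sq_nonneg (a+b+c-9*D), sq_nonneg (a-b), sq_nonneg (b-c), sq_nonneg (a-c), sq_nonneg (a-b-D), sq_nonneg (a-9*D), sq_nonneg (b-9*D), sq_nonneg (a-9*b), sq_nonneg (a-2*b), sq_nonneg (a-3*b), sq_nonneg (a-9*D-b-c), sq_nonneg (a-D-2*b)]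

theorem c133 (a b c D : ℝ) (h0 : 0 ≤ a) (h1 : 0 ≤ b) (h2 : 0 ≤ c) (h3 : 0 ≤ D) (h4 : 0 ≤ D+a-c) (h5 : 0 ≤ D+b-a) (h6 : 0 ≤ b-9*(D+c)) (h7 : 0 ≤ a+b+c-9*D) :
    a^2/4 + 9/4*(D+c)^2 + c^2/4 ≤ (a*b+b*c+c*a)/2 + 9/4*D^2 := by
  linarith [mul_nonneg h0 h0, mul_nonneg h0 h1, mul_nonneg h0 h2, mul_nonneg h0 h3, mul_nonneg h0 h4, mul_nonneg h0 h5, mul_nonneg h0 h6, mul_nonneg h0 h7, mul_nonneg h1 h1, mul_nonneg h1 h2, mul_nonneg h1 h3, mul_nonneg h1 h4, mul_nonneg h1 h5, mul_nonneg h1 h6, mul_nonneg h1 h7, mul_nonneg h2 h2, mul_nonneg h2 h3, mul_nonneg h2 h4, mul_nonneg h2 h5, mul_nonneg h2 h6, mul_nonneg h2 h7, mul_nonneg h3 h3, mul_nonneg h3 h4, mul_nonneg h3 h5, mul_nonneg h3 h6, mul_nonneg h3 h7, mul_nonneg h4 h4, mul_nonneg h4 h5, mul_nonneg h4 h6, mul_nonneg h4 h7, mul_nonneg h5 h5, mul_nonneg h5 h6, mul_nonneg h5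 h7, mul_nonneg h6 h6, mul_nonneg h6 h7, mul_nonneg h7 h7, sq_nonneg (a-9*D-b), sq_nonneg (b-9*D-c), sq_nonneg (a+b+c-9*D), sq_nonneg (a-b), sq_nonneg (b-c), sq_nonneg (a-c), sq_nonneg (a-b-D), sq_nonneg (a-9*D), sq_nonneg (b-9*D), sq_nonneg (a-9*b), sq_nonneg (a-2*b), sq_nonneg (a-3*b), sq_nonneg (a-9*D-b-c), sq_nonneg (a-D-2*b)]

theorem c212 (a b c D : ℝ) (h0 : 0 ≤ a) (h1 : 0 ≤ b) (h2 : 0 ≤ c) (h3 : 0 ≤ D) (h4 : 0 ≤ D+a-c) (h5 : 0 ≤ a-(D+b)) (h6 : 0 ≤ 9*(D+b)-a) (h7 : 0 ≤ D+c-b) (h8 : 0 ≤ a+b+c-D) (h9 : 0 ≤ 9*D-(a+b+c)) :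
    (a^2/4-9/32*(a-(D+b))^2) + b^2/4 + c^2/4 ≤ (a*b+b*c+c*a)/2 + ((a+b+c)^2/4-9/32*(a+b+c-D)^2) := by
  linarith [mul_nonneg h0 h0, mul_nonneg h0 h1, mul_nonneg h0 h2, mul_nonneg h0 h3, mul_nonneg h0 h4, mul_nonneg h0 h5, mul_nonneg h0 h6, mul_nonneg h0 h7, mul_nonneg h0 h8, mul_nonneg h0 h9, mul_nonneg h1 h1, mul_nonneg h1 h2, mul_nonneg h1 h3, mul_nonneg h1 h4, mul_nonneg h1 h5, mul_nonneg h1 h6, mul_nonneg h1 h7, mul_nonneg h1 h8, mul_nonneg h1 h9, mul_nonneg h2 h2, mul_nonneg h2 h3, mul_nonneg h2 h4, mul_nonneg h2 h5, mul_nonneg h2 h6, mul_nonneg h2 h7, mul_nonneg h2 h8, mul_nonneg h2 h9, mul_nonneg h3 h3, mul_nonneg h3 h4, mul_nonneg h3 h5, mul_nonneg h3 h6, mul_nonneg h3 h7, mul_nonneg h3 h8, mul_nonneg h3 h9, mul_nonneg h4 h4, mul_nonneg h4 h5, mul_nonneg h4 h6, mul_nonneg h4 h7, mul_nonneg h4 h8, mul_nonneg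 h4 h9, mul_nonneg h5 h5, mul_nonneg h5 h6, mul_nonneg h5 h7, mul_nonneg h5 h8, mul_nonneg h5 h9, mul_nonneg h6 h6, mul_nonneg h6 h7, mul_nonneg h6 h8, mul_nonneg h6 h9, mul_nonneg h7 h7, mul_nonneg h7 h8, mul_nonneg h7 h9, mul_nonneg h8 h8, mul_nonneg h8 h9, mul_nonneg h9 h9, sq_nonneg (a-9*D-b), sq_nonneg (b-9*D-c), sq_nonneg (a+b+c-9*D), sq_nonneg (a-b), sq_nonneg (b-c), sq_nonneg (a-c), sq_nonneg (a-b-D), sq_nonneg (a-9*D), sq_nonneg (b-9*D), sq_nonneg (a-9*b), sq_nonneg (a-2*b), sq_nonneg (a-3*b), sq_nonneg (a-9*D-b-c), sq_nonneg (a-D-2*b)]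

theorem c213 (a b c D : ℝ) (h0 : 0 ≤ a) (h1 : 0 ≤ b) (h2 : 0 ≤ c) (h3 : 0 ≤ D) (h4 : 0 ≤ D+a-c) (h5 : 0 ≤ a-(D+b)) (h6 : 0 ≤ 9*(D+b)-a) (h7 : 0 ≤ D+c-b) (h8 : 0 ≤ a+b+c-9*D) :
    (a^2/4-9/32*(a-(D+b))^2) + b^2/4 + c^2/4 ≤ (a*b+b*c+c*a)/2 + 9/4*D^2 := by
  linarith [mul_nonneg h0 h0, mul_nonneg h0 h1, mul_nonneg h0 h2, mul_nonneg h0 h3, mul_nonneg h0 h4, mul_nonneg h0 h5, mul_nonneg h0 h6, mul_nonneg h0 h7, mul_nonneg h0 h8, mul_nonneg h1 h1, mul_nonneg h1 h2, mul_nonneg h1 h3, mul_nonneg h1 h4, mul_nonneg h1 h5, mul_nonneg h1 h6, mul_nonneg h1 h7, mul_nonneg h1 h8, mul_nonneg h2 h2, mul_nonneg h2 h3, mul_nonneg h2 h4, mul_nonneg h2 h5, mul_nonneg h2 h6, mul_nonneg h2 h7, mul_nonneg h2 h8, mul_nonneg h3 h3, mul_nonneg h3 h4, mul_nonneg h3 h5, mul_nonneg h3 h6, mul_nonneg h3 h7, mul_nonneg h3 h8, mul_nonneg h4 h4,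 mul_nonneg h4 h5, mul_nonneg h4 h6, mul_nonneg h4 h7, mul_nonneg h4 h8, mul_nonneg h5 h5, mul_nonneg h5 h6, mul_nonneg h5 h7, mul_nonneg h5 h8, mul_nonneg h6 h6, mul_nonneg h6 h7, mul_nonneg h6 h8, mul_nonneg h7 h7, mul_nonneg h7 h8, mul_nonneg h8 h8, sq_nonneg (a-9*D-b), sq_nonneg (b-9*D-c), sq_nonneg (a+b+c-9*D), sq_nonneg (a-b), sq_nonneg (b-c), sq_nonneg (a-c), sq_nonneg (a-b-D), sq_nonneg (a-9*D), sq_nonneg (b-9*D), sq_nonneg (a-9*b), sq_nonneg (a-2*b), sq_nonneg (a-3*b), sq_nonneg (a-9*D-b-c), sq_nonneg (a-D-2*b)]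

theorem c222 (a b c D : ℝ) (h0 : 0 ≤ a) (h1 : 0 ≤ b) (h2 : 0 ≤ c) (h3 : 0 ≤ D) (h4 : 0 ≤ D+a-c) (h5 : 0 ≤ a-(D+b)) (h6 : 0 ≤ 9*(D+b)-a) (h7 : 0 ≤ b-(D+c)) (h8 : 0 ≤ 9*(D+c)-b) (h9 : 0 ≤ a+b+c-D) (h10 : 0 ≤ 9*D-(a+b+c)) :
    (a^2/4-9/32*(a-(D+b))^2) + (b^2/4-9/32*(b-(D+c))^2) + c^2/4 ≤ (a*b+b*c+c*a)/2 + ((a+b+c)^2/4-9/32*(a+b+c-D)^2) := by
  linarith [mul_nonneg h0 h0, mul_nonneg h0 h1, mul_nonneg h0 h2, mul_nonneg h0 h3, mul_nonneg h0 h4, mul_nonneg h0 h5, mul_nonneg h0 h6, mul_nonneg h0 h7, mul_nonneg h0 h8, mul_nonneg h0 h9, mul_nonneg h0 h10, mul_nonneg h1 h1, mul_nonneg h1 h2, mul_nonneg h1 h3, mul_nonneg h1 h4, mul_nonneg h1 h5, mul_nonneg h1 h6, mul_nonneg h1 h7, mul_nonneg h1 h8, mul_nonneg h1 h9, mul_nonneg h1 h10, mul_nonneg h2 h2, mul_nonneg h2 h3, mul_nonneg h2 h4, mul_nonneg h2 h5, mul_nonneg h2 h6, mul_nonneg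 h2 h7, mul_nonneg h2 h8, mul_nonneg h2 h9, mul_nonneg h2 h10, mul_nonneg h3 h3, mul_nonneg h3 h4, mul_nonneg h3 h5, mul_nonneg h3 h6, mul_nonneg h3 h7, mul_nonneg h3 h8, mul_nonneg h3 h9, mul_nonneg h3 h10, mul_nonneg h4 h4, mul_nonneg h4 h5, mul_nonneg h4 h6, mul_nonneg h4 h7, mul_nonneg h4 h8, mul_nonneg h4 h9, mul_nonneg h4 h10, mul_nonneg h5 h5, mul_nonneg h5 h6, mul_nonneg h5 h7, mul_nonneg h5 h8, mul_nonneg h5 h9, mul_nonneg h5 h10, mul_nonneg h6 h6, mul_nonneg h6 h7, mul_nonneg h6 h8, mul_nonneg h6 h9, mul_nonneg h6 h10, mul_nonneg h7 h7, mul_nonneg h7 h8, mul_nonneg h7 h9, mul_nonneg h7 h10, mul_nonneg h8 h8, mul_nonneg h8 h9, mul_nonneg h8 h10, mul_nonneg h9 h9, mul_nonneg h9 h10, mul_nonneg h10 h10, sq_nonneg (a-9*D-b), sq_nonneg (b-9*D-c), sq_nonneg (a+b+c-9*D), sq_nonneg (a-b), sq_nonneg (b-c), sq_nonneg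 (a-c), sq_nonneg (a-b-D), sq_nonneg (a-9*D), sq_nonneg (b-9*D), sq_nonneg (a-9*b), sq_nonneg (a-2*b), sq_nonneg (a-3*b), sq_nonneg (a-9*D-b-c), sq_nonneg (a-D-2*b)]

theorem c223 (a b c D : ℝ) (h0 : 0 ≤ a) (h1 : 0 ≤ b) (h2 : 0 ≤ c) (h3 : 0 ≤ D) (h4 : 0 ≤ D+a-c) (h5 : 0 ≤ a-(D+b)) (h6 : 0 ≤ 9*(D+b)-a) (h7 : 0 ≤ b-(D+c)) (h8 : 0 ≤ 9*(D+c)-b) (h9 : 0 ≤ a+b+c-9*D) :
    (a^2/4-9/32*(a-(D+b))^2) + (b^2/4-9/32*(b-(D+c))^2) + c^2/4 ≤ (a*b+b*c+c*a)/2 + 9/4*D^2 := by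
  linarith [mul_nonneg h0 h0, mul_nonneg h0 h1, mul_nonneg h0 h2, mul_nonneg h0 h3, mul_nonneg h0 h4, mul_nonneg h0 h5, mul_nonneg h0 h6, mul_nonneg h0 h7, mul_nonneg h0 h8, mul_nonneg h0 h9, mul_nonneg h1 h1, mul_nonneg h1 h2, mul_nonneg h1 h3, mul_nonneg h1 h4, mul_nonneg h1 h5, mul_nonneg h1 h6, mul_nonneg h1 h7, mul_nonneg h1 h8, mul_nonneg h1 h9, mul_nonneg h2 h2, mul_nonneg h2 h3, mul_nonneg h2 h4, mul_nonneg h2 h5, mul_nonneg h2 h6, mul_nonneg h2 h7, mul_nonneg h2 h8, mul_nonneg h2 h9, mul_nonneg h3 h3, mul_nonneg h3 h4, mul_nonneg h3 h5, mul_nonneg h3 h6, mul_nonneg h3 h7, mul_nonneg h3 h8, mul_nonneg h3 h9, mul_nonneg h4 h4, mul_nonneg h4 h5, mul_nonneg h4 h6, mul_nonneg h4 h7, mul_nonneg h4 h8, mul_nonneg h4 h9, mul_nonneg h5 h5, mul_nonneg h5 h6, mul_nonneg h5 h7, mul_nonneg h5 h8, mul_nonneg h5 h9, mul_nonneg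 h6 h6, mul_nonneg h6 h7, mul_nonneg h6 h8, mul_nonneg h6 h9, mul_nonneg h7 h7, mul_nonneg h7 h8, mul_nonneg h7 h9, mul_nonneg h8 h8, mul_nonneg h8 h9, mul_nonneg h9 h9, sq_nonneg (a-9*D-b), sq_nonneg (b-9*D-c), sq_nonneg (a+b+c-9*D), sq_nonneg (a-b), sq_nonneg (b-c), sq_nonneg (a-c), sq_nonneg (a-b-D), sq_nonneg (a-9*D), sq_nonneg (b-9*D), sq_nonneg (a-9*b), sq_nonneg (a-2*b), sq_nonneg (a-3*b), sq_nonneg (a-9*D-b-c), sq_nonneg (a-D-2*b)]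

theorem c232 (a b c D : ℝ) (h0 : 0 ≤ a) (h1 : 0 ≤ b) (h2 : 0 ≤ c) (h3 : 0 ≤ D) (h4 : 0 ≤ D+a-c) (h5 : 0 ≤ a-(D+b)) (h6 : 0 ≤ 9*(D+b)-a) (h7 : 0 ≤ b-9*(D+c)) (h8 : 0 ≤ a+b+c-D) (h9 : 0 ≤ 9*D-(a+b+c)) :
    (a^2/4-9/32*(a-(D+b))^2) + 9/4*(D+c)^2 + c^2/4 ≤ (a*b+b*c+c*a)/2 + ((a+b+c)^2/4-9/32*(a+b+c-D)^2) := by
  linarith [mul_nonneg h0 h0, mul_nonneg h0 h1, mul_nonneg h0 h2, mul_nonneg h0 h3, mul_nonneg h0 h4, mul_nonneg h0 h5, mul_nonneg h0 h6, mul_nonneg h0 h7, mul_nonneg h0 h8, mul_nonneg h0 h9, mul_nonneg h1 h1, mul_nonneg h1 h2, mul_nonneg h1 h3, mul_nonneg h1 h4, mul_nonneg h1 h5, mul_nonneg h1 h6, mul_nonneg h1 h7, mul_nonneg h1 h8, mul_nonneg h1 h9, mul_nonneg h2 h2, mul_nonneg h2 h3, mul_nonneg h2 h4, mul_nonneg h2 h5, mul_nonneg h2 h6, mul_nonneg h2 h7, mul_nonneg h2 h8, mul_nonneg h2 h9, mul_nonneg h3 h3,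 mul_nonneg h3 h4, mul_nonneg h3 h5, mul_nonneg h3 h6, mul_nonneg h3 h7, mul_nonneg h3 h8, mul_nonneg h3 h9, mul_nonneg h4 h4, mul_nonneg h4 h5, mul_nonneg h4 h6, mul_nonneg h4 h7, mul_nonneg h4 h8, mul_nonneg h4 h9, mul_nonneg h5 h5, mul_nonneg h5 h6, mul_nonneg h5 h7, mul_nonneg h5 h8, mul_nonneg h5 h9, mul_nonneg h6 h6, mul_nonneg h6 h7, mul_nonneg h6 h8, mul_nonneg h6 h9, mul_nonneg h7 h7, mul_nonneg h7 h8, mul_nonneg h7 h9, mul_nonneg h8 h8, mul_nonneg h8 h9, mul_nonneg h9 h9, sq_nonneg (a-9*D-b), sq_nonneg (b-9*D-c), sq_nonneg (a+b+c-9*D), sq_nonneg (a-b), sq_nonneg (b-c), sq_nonneg (a-c), sq_nonneg (a-b-D), sq_nonneg (a-9*D), sq_nonneg (b-9*D), sq_nonneg (a-9*b), sq_nonneg (a-2*b), sq_nonneg (a-3*b), sq_nonneg (a-9*D-b-c), sq_nonneg (a-D-2*b)]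

theorem c233 (a b c D : ℝ) (h0 : 0 ≤ a) (h1 : 0 ≤ b) (h2 : 0 ≤ c) (h3 : 0 ≤ D) (h4 : 0 ≤ D+a-c) (h5 : 0 ≤ a-(D+b)) (h6 : 0 ≤ 9*(D+b)-a) (h7 : 0 ≤ b-9*(D+c)) (h8 : 0 ≤ a+b+c-9*D) :
    (a^2/4-9/32*(a-(D+b))^2) + 9/4*(D+c)^2 + c^2/4 ≤ (a*b+b*c+c*a)/2 + 9/4*D^2 := by
  linarith [mul_nonneg h0 h0, mul_nonneg h0 h1, mul_nonneg h0 h2, mul_nonneg h0 h3, mul_nonneg h0 h4, mul_nonneg h0 h5, mul_nonneg h0 h6, mul_nonneg h0 h7, mul_nonneg h0 h8, mul_nonneg h1 h1, mul_nonneg h1 h2, mul_nonneg h1 h3, mul_nonneg h1 h4, mul_nonneg h1 h5, mul_nonneg h1 h6, mul_nonneg h1 h7, mul_nonneg h1 h8, mul_nonneg h2 h2, mul_nonneg h2 h3, mul_nonneg h2 h4, mul_nonneg h2 h5, mul_nonneg h2 h6, mul_nonneg h2 h7, mul_nonneg h2 h8, mul_nonneg h3 h3, mul_nonneg h3 h4, mul_nonneg h3 h5, mul_nonneg h3 h6, mul_nonneg h3 h7, mul_nonneg h3 h8, mul_nonneg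 h4 h4, mul_nonneg h4 h5, mul_nonneg h4 h6, mul_nonneg h4 h7, mul_nonneg h4 h8, mul_nonneg h5 h5, mul_nonneg h5 h6, mul_nonneg h5 h7, mul_nonneg h5 h8, mul_nonneg h6 h6, mul_nonneg h6 h7, mul_nonneg h6 h8, mul_nonneg h7 h7, mul_nonneg h7 h8, mul_nonneg h8 h8, sq_nonneg (a-9*D-b), sq_nonneg (b-9*D-c), sq_nonneg (a+b+c-9*D), sq_nonneg (a-b), sq_nonneg (b-c), sq_nonneg (a-c), sq_nonneg (a-b-D), sq_nonneg (a-9*D), sq_nonneg (b-9*D), sq_nonneg (a-9*b), sq_nonneg (a-2*b), sq_nonneg (a-3*b), sq_nonneg (a-9*D-b-c), sq_nonneg (a-D-2*b)]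

theorem c312 (a b c D : ℝ) (h0 : 0 ≤ a) (h1 : 0 ≤ b) (h2 : 0 ≤ c) (h3 : 0 ≤ D) (h4 : 0 ≤ D+a-c) (h5 : 0 ≤ a-9*(D+b)) (h6 : 0 ≤ D+c-b) (h7 : 0 ≤ a+b+c-D) (h8 : 0 ≤ 9*D-(a+b+c)) :
    9/4*(D+b)^2 + b^2/4 + c^2/4 ≤ (a*b+b*c+c*a)/2 + ((a+b+c)^2/4-9/32*(a+b+c-D)^2) := by
  linarith [mul_nonneg h0 h0, mul_nonneg h0 h1, mul_nonneg h0 h2, mul_nonneg h0 h3, mul_nonneg h0 h4, mul_nonneg h0 h5, mul_nonneg h0 h6, mul_nonneg h0 h7, mul_nonneg h0 h8, mul_nonneg h1 h1, mul_nonneg h1 h2, mul_nonneg h1 h3, mul_nonneg h1 h4, mul_nonneg h1 h5, mul_nonneg h1 h6, mul_nonneg h1 h7, mul_nonneg h1 h8, mul_nonneg h2 h2, mul_nonneg h2 h3, mul_nonneg h2 h4, mul_nonneg h2 h5, mul_nonneg h2 h6, mul_nonneg h2 h7, mul_nonneg h2 h8, mul_nonneg h3 h3, mul_nonneg h3 h4, mul_nonneg h3 h5, mul_nonneg h3 h6, mul_nonneg h3 h7, mul_nonneg h3 h8, mul_nonneg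 h4 h4, mul_nonneg h4 h5, mul_nonneg h4 h6, mul_nonneg h4 h7, mul_nonneg h4 h8, mul_nonneg h5 h5, mul_nonneg h5 h6, mul_nonneg h5 h7, mul_nonneg h5 h8, mul_nonneg h6 h6, mul_nonneg h6 h7, mul_nonneg h6 h8, mul_nonneg h7 h7, mul_nonneg h7 h8, mul_nonneg h8 h8, sq_nonneg (a-9*D-b), sq_nonneg (b-9*D-c), sq_nonneg (a+b+c-9*D), sq_nonneg (a-b), sq_nonneg (b-c), sq_nonneg (a-c), sq_nonneg (a-b-D), sq_nonneg (a-9*D), sq_nonneg (b-9*D), sq_nonneg (a-9*b), sq_nonneg (a-2*b), sq_nonneg (a-3*b), sq_nonneg (a-9*D-b-c), sq_nonneg (a-D-2*b)]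

theorem c313 (a b c D : ℝ) (h0 : 0 ≤ a) (h1 : 0 ≤ b) (h2 : 0 ≤ c) (h3 : 0 ≤ D) (h4 : 0 ≤ D+a-c) (h5 : 0 ≤ a-9*(D+b)) (h6 : 0 ≤ D+c-b) (h7 : 0 ≤ a+b+c-9*D) :
    9/4*(D+b)^2 + b^2/4 + c^2/4 ≤ (a*b+b*c+c*a)/2 + 9/4*D^2 := by
  linarith [mul_nonneg h0 h0, mul_nonneg h0 h1, mul_nonneg h0 h2, mul_nonneg h0 h3, mul_nonneg h0 h4, mul_nonneg h0 h5, mul_nonneg h0 h6, mul_nonneg h0 h7, mul_nonneg h1 h1, mul_nonneg h1 h2, mul_nonneg h1 h3, mul_nonneg h1 h4, mul_nonneg h1 h5, mul_nonneg h1 h6, mul_nonneg h1 h7, mul_nonneg h2 h2, mul_nonneg h2 h3, mul_nonneg h2 h4, mul_nonneg h2 h5, mul_nonneg h2 h6, mul_nonneg h2 h7, mul_nonneg h3 h3, mul_nonneg h3 h4, mul_nonneg h3 h5, mul_nonneg h3 h6, mul_nonneg h3 h7, mul_nonneg h4 h4, mul_nonneg h4 h5, mul_nonneg h4 h6, mul_nonneg h4 h7, mul_nonneg h5 h5, mul_nonneg h5 h6, mul_nonneg h5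 h7, mul_nonneg h6 h6, mul_nonneg h6 h7, mul_nonneg h7 h7, sq_nonneg (a-9*D-b), sq_nonneg (b-9*D-c), sq_nonneg (a+b+c-9*D), sq_nonneg (a-b), sq_nonneg (b-c), sq_nonneg (a-c), sq_nonneg (a-b-D), sq_nonneg (a-9*D), sq_nonneg (b-9*D), sq_nonneg (a-9*b), sq_nonneg (a-2*b), sq_nonneg (a-3*b), sq_nonneg (a-9*D-b-c), sq_nonneg (a-D-2*b)]

theorem c322 (a b c D : ℝ) (h0 : 0 ≤ a) (h1 : 0 ≤ b) (h2 : 0 ≤ c) (h3 : 0 ≤ D) (h4 : 0 ≤ D+a-c) (h5 : 0 ≤ a-9*(D+b)) (h6 : 0 ≤ b-(D+c)) (h7 : 0 ≤ 9*(D+c)-b) (h8 : 0 ≤ a+b+c-D) (h9 : 0 ≤ 9*D-(a+b+c)) :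
    9/4*(D+b)^2 + (b^2/4-9/32*(b-(D+c))^2) + c^2/4 ≤ (a*b+b*c+c*a)/2 + ((a+b+c)^2/4-9/32*(a+b+c-D)^2) := by
  linarith [mul_nonneg h0 h0, mul_nonneg h0 h1, mul_nonneg h0 h2, mul_nonneg h0 h3, mul_nonneg h0 h4, mul_nonneg h0 h5, mul_nonneg h0 h6, mul_nonneg h0 h7, mul_nonneg h0 h8, mul_nonneg h0 h9, mul_nonneg h1 h1, mul_nonneg h1 h2, mul_nonneg h1 h3, mul_nonneg h1 h4, mul_nonneg h1 h5, mul_nonneg h1 h6, mul_nonneg h1 h7, mul_nonneg h1 h8, mul_nonneg h1 h9, mul_nonneg h2 h2, mul_nonneg h2 h3, mul_nonneg h2 h4, mul_nonneg h2 h5, mul_nonneg h2 h6, mul_nonneg h2 h7, mul_nonneg h2 h8, mul_nonneg h2 h9, mul_nonneg h3 h3, mul_nonneg h3 h4, mul_nonneg h3 h5, mul_nonneg h3 h6, mul_nonneg h3 h7, mul_nonneg h3 h8, mul_nonneg h3 h9, mul_nonneg h4 h4, mul_nonneg h4 h5, mul_nonneg h4 h6, mul_nonneg h4 h7, mul_nonneg h4 h8, mul_nonneg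 h4 h9, mul_nonneg h5 h5, mul_nonneg h5 h6, mul_nonneg h5 h7, mul_nonneg h5 h8, mul_nonneg h5 h9, mul_nonneg h6 h6, mul_nonneg h6 h7, mul_nonneg h6 h8, mul_nonneg h6 h9, mul_nonneg h7 h7, mul_nonneg h7 h8, mul_nonneg h7 h9, mul_nonneg h8 h8, mul_nonneg h8 h9, mul_nonneg h9 h9, sq_nonneg (a-9*D-b), sq_nonneg (b-9*D-c), sq_nonneg (a+b+c-9*D), sq_nonneg (a-b), sq_nonneg (b-c), sq_nonneg (a-c), sq_nonneg (a-b-D), sq_nonneg (a-9*D), sq_nonneg (b-9*D), sq_nonneg (a-9*b), sq_nonneg (a-2*b), sq_nonneg (a-3*b), sq_nonneg (a-9*D-b-c), sq_nonneg (a-D-2*b)]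

theorem c323 (a b c D : ℝ) (h0 : 0 ≤ a) (h1 : 0 ≤ b) (h2 : 0 ≤ c) (h3 : 0 ≤ D) (h4 : 0 ≤ D+a-c) (h5 : 0 ≤ a-9*(D+b)) (h6 : 0 ≤ b-(D+c)) (h7 : 0 ≤ 9*(D+c)-b) (h8 : 0 ≤ a+b+c-9*D) :
    9/4*(D+b)^2 + (b^2/4-9/32*(b-(D+c))^2) + c^2/4 ≤ (a*b+b*c+c*a)/2 + 9/4*D^2 := by
  linarith [mul_nonneg h0 h0, mul_nonneg h0 h1, mul_nonneg h0 h2, mul_nonneg h0 h3, mul_nonneg h0 h4, mul_nonneg h0 h5, mul_nonneg h0 h6, mul_nonneg h0 h7, mul_nonneg h0 h8, mul_nonneg h1 h1, mul_nonneg h1 h2, mul_nonneg h1 h3, mul_nonneg h1 h4, mul_nonneg h1 h5, mul_nonneg h1 h6, mul_nonneg h1 h7, mul_nonneg h1 h8, mul_nonneg h2 h2, mul_nonneg h2 h3, mul_nonneg h2 h4, mul_nonneg h2 h5, mul_nonneg h2 h6, mul_nonneg h2 h7, mul_nonneg h2 h8, mul_nonneg h3 h3, mul_nonneg h3 h4, mul_nonneg h3 h5, mul_nonneg h3 h6, mul_nonneg h3 h7, mul_nonneg h3 h8, mul_nonneg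 h4 h4, mul_nonneg h4 h5, mul_nonneg h4 h6, mul_nonneg h4 h7, mul_nonneg h4 h8, mul_nonneg h5 h5, mul_nonneg h5 h6, mul_nonneg h5 h7, mul_nonneg h5 h8, mul_nonneg h6 h6, mul_nonneg h6 h7, mul_nonneg h6 h8, mul_nonneg h7 h7, mul_nonneg h7 h8, mul_nonneg h8 h8, sq_nonneg (a-9*D-b), sq_nonneg (b-9*D-c), sq_nonneg (a+b+c-9*D), sq_nonneg (a-b), sq_nonneg (b-c), sq_nonneg (a-c), sq_nonneg (a-b-D), sq_nonneg (a-9*D), sq_nonneg (b-9*D), sq_nonneg (a-9*b), sq_nonneg (a-2*b), sq_nonneg (a-3*b), sq_nonneg (a-9*D-b-c), sq_nonneg (a-D-2*b)]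

theorem c332 (a b c D : ℝ) (h0 : 0 ≤ a) (h1 : 0 ≤ b) (h2 : 0 ≤ c) (h3 : 0 ≤ D) (h4 : 0 ≤ D+a-c) (h5 : 0 ≤ a-9*(D+b)) (h6 : 0 ≤ b-9*(D+c)) (h7 : 0 ≤ a+b+c-D) (h8 : 0 ≤ 9*D-(a+b+c)) :
    9/4*(D+b)^2 + 9/4*(D+c)^2 + c^2/4 ≤ (a*b+b*c+c*a)/2 + ((a+b+c)^2/4-9/32*(a+b+c-D)^2) := by
  linarith [mul_nonneg h0 h0, mul_nonneg h0 h1, mul_nonneg h0 h2, mul_nonneg h0 h3, mul_nonneg h0 h4, mul_nonneg h0 h5, mul_nonneg h0 h6, mul_nonneg h0 h7, mul_nonneg h0 h8, mul_nonneg h1 h1, mul_nonneg h1 h2, mul_nonneg h1 h3, mul_nonneg h1 h4, mul_nonneg h1 h5, mul_nonneg h1 h6, mul_nonneg h1 h7, mul_nonneg h1 h8, mul_nonneg h2 h2, mul_nonneg h2 h3, mul_nonneg h2 h4, mul_nonneg h2 h5, mul_nonneg h2 h6, mul_nonneg h2 h7, mul_nonneg h2 h8, mul_nonneg h3 h3, mul_nonneg h3 h4, mul_nonneg h3 h5, mul_nonneg h3 h6, mul_nonneg h3 h7, mul_nonneg h3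 h8, mul_nonneg h4 h4, mul_nonneg h4 h5, mul_nonneg h4 h6, mul_nonneg h4 h7, mul_nonneg h4 h8, mul_nonneg h5 h5, mul_nonneg h5 h6, mul_nonneg h5 h7, mul_nonneg h5 h8, mul_nonneg h6 h6, mul_nonneg h6 h7, mul_nonneg h6 h8, mul_nonneg h7 h7, mul_nonneg h7 h8, mul_nonneg h8 h8, sq_nonneg (a-9*D-b), sq_nonneg (b-9*D-c), sq_nonneg (a+b+c-9*D), sq_nonneg (a-b), sq_nonneg (b-c), sq_nonneg (a-c), sq_nonneg (a-b-D), sq_nonneg (a-9*D), sq_nonneg (b-9*D), sq_nonneg (a-9*b), sq_nonneg (a-2*b), sq_nonneg (a-3*b), sq_nonneg (a-9*D-b-c), sq_nonneg (a-D-2*b)]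

theorem c333 (a b c D : ℝ) (h0 : 0 ≤ a) (h1 : 0 ≤ b) (h2 : 0 ≤ c) (h3 : 0 ≤ D) (h4 : 0 ≤ D+a-c) (h5 : 0 ≤ a-9*(D+b)) (h6 : 0 ≤ b-9*(D+c)) (h7 : 0 ≤ a+b+c-9*D) :
    9/4*(D+b)^2 + 9/4*(D+c)^2 + c^2/4 ≤ (a*b+b*c+c*a)/2 + 9/4*D^2 := by
  linarith [mul_nonneg h0 h0, mul_nonneg h0 h1, mul_nonneg h0 h2, mul_nonneg h0 h3, mul_nonneg h0 h4, mul_nonneg h0 h5, mul_nonneg h0 h6, mul_nonneg h0 h7, mul_nonneg h1 h1, mul_nonneg h1 h2, mul_nonneg h1 h3, mul_nonneg h1 h4, mul_nonneg h1 h5, mul_nonneg h1 h6, mul_nonneg h1 h7, mul_nonneg h2 h2, mul_nonneg h2 h3, mul_nonneg h2 h4, mul_nonneg h2 h5, mul_nonneg h2 h6, mul_nonneg h2 h7, mul_nonneg h3 h3, mul_nonneg h3 h4, mul_nonneg h3 h5, mul_nonneg h3 h6, mul_nonneg h3 h7, mul_nonneg h4 h4, mul_nonneg h4 h5, mul_nonneg h4 h6, mul_nonneg h4 h7, mul_nonneg h5 h5, mul_nonneg h5 h6, mul_nonneg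 h5 h7, mul_nonneg h6 h6, mul_nonneg h6 h7, mul_nonneg h7 h7, sq_nonneg (a-9*D-b), sq_nonneg (b-9*D-c), sq_nonneg (a+b+c-9*D), sq_nonneg (a-b), sq_nonneg (b-c), sq_nonneg (a-c), sq_nonneg (a-b-D), sq_nonneg (a-9*D), sq_nonneg (b-9*D), sq_nonneg (a-9*b), sq_nonneg (a-2*b), sq_nonneg (a-3*b), sq_nonneg (a-9*D-b-c), sq_nonneg (a-D-2*b)]

theorem N_cases (E x : ℝ) (hE : 0 ≤ E) : (x ≤ E ∧ N E x = x ^ 2 / 4) ∨
    (E ≤ x ∧ x ≤ 9 * E ∧ N E x = (x ^ 2 / 4 - 9 / 32 * (x - E) ^ 2)) ∨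
    (9 * E ≤ x ∧ N E x = 9 / 4 * E ^ 2) := by
  unfold N
  rcases le_total x E with h | h
  · left
    refine ⟨h, ?_⟩
    rw [max_eq_right (by linarith), max_eq_right (by linarith)]
    ring
  · rcases le_total x (9 * E) with h' | h'
    · right; left
      refine ⟨h, h', ?_⟩
      rw [max_eq_left (by linarith), max_eq_right (by linarith)]
      ring
    · right; right
      refine ⟨h', ?_⟩
      rw [max_eq_left (by linarith), max_eq_left (by linarith)]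
      ring

theorem N_small (E x : ℝ) (hE : 0 ≤ E) (h : x ≤ E) : N E x = x ^ 2 / 4 := by
  unfold N
  rw [max_eq_right (by linarith), max_eq_right (by linarith)]
  ring

theorem N_aux {a b c D : ℝ} (ha : 0 ≤ a) (hb : 0 ≤ b) (hc : 0 ≤ c) (hD : 0 ≤ D)
    (hca : c ≤ D + a) :
    N (D + b) a + N (D + c) b + N (D + a) c ≤ (a * b + b * c + c * a) / 2 + N D (a + b + c) := by
  rw [N_small (D + a) c (by linarith) hca]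
  rcases N_cases D (a + b + c) hD with ⟨h, e⟩ | ⟨h, h', e⟩ | ⟨h, e⟩
  · rw [e, N_small (D + b) a (by linarith) (by linarith),
      N_small (D + c) b (by linarith) (by linarith)]
    nlinarith [mul_nonneg ha hb, mul_nonneg hb hc, mul_nonneg ha hc]
  · rw [e]
    rcases N_cases (D + b) a (by linarith) with ⟨k1, f1⟩ | ⟨k1, k1', f1⟩ | ⟨k1, f1⟩
    · rw [f1]
      rcases N_cases (D + c) b (by linarith) with ⟨k2, f2⟩ | ⟨k2, k2', f2⟩ | ⟨k2, f2⟩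
      · rw [f2]
        exact c112 a b c D ha hb hc hD (by linarith) (by linarith) (by linarith) (by linarith) (by linarith)
      · rw [f2]
        exact c122 a b c D ha hb hc hD (by linarith) (by linarith) (by linarith) (by linarith) (by linarith) (by linarith)
      · rw [f2]
        exact c132 a b c D ha hb hc hD (by linarith) (by linarith) (by linarith) (by linarith) (by linarith)
    · rw [f1]
      rcases N_cases (D + c) b (by linarith) with ⟨k2, f2⟩ | ⟨k2, k2', f2⟩ | ⟨k2, f2⟩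
      · rw [f2]
        exact c212 a b c D ha hb hc hD (by linarith) (by linarith) (by linarith) (by linarith) (by linarith) (by linarith)
      · rw [f2]
        exact c222 a b c D ha hb hc hD (by linarith) (by linarith) (by linarith) (by linarith) (by linarith) (by linarith) (by linarith)
      · rw [f2]
        exact c232 a b c D ha hb hc hD (by linarith) (by linarith) (by linarith) (by linarith) (by linarith) (by linarith)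
    · rw [f1]
      rcases N_cases (D + c) b (by linarith) with ⟨k2, f2⟩ | ⟨k2, k2', f2⟩ | ⟨k2, f2⟩
      · rw [f2]
        exact c312 a b c D ha hb hc hD (by linarith) (by linarith) (by linarith) (by linarith) (by linarith)
      · rw [f2]
        exact c322 a b c D ha hb hc hD (by linarith) (by linarith) (by linarith) (by linarith) (by linarith) (by linarith)
      · rw [f2]
        exact c332 a b c D ha hb hc hD (by linarith) (by linarith) (by linarith) (by linarith) (by linarith)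
  · rw [e]
    rcases N_cases (D + b) a (by linarith) with ⟨k1, f1⟩ | ⟨k1, k1', f1⟩ | ⟨k1, f1⟩
    · rw [f1]
      rcases N_cases (D + c) b (by linarith) with ⟨k2, f2⟩ | ⟨k2, k2', f2⟩ | ⟨k2, f2⟩
      · rw [f2]
        exact c113 a b c D ha hb hc hD (by linarith) (by linarith) (by linarith) (by linarith)
      · rw [f2]
        exact c123 a b c D ha hb hc hD (by linarith) (by linarith) (by linarith) (by linarith) (by linarith)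
      · rw [f2]
        exact c133 a b c D ha hb hc hD (by linarith) (by linarith) (by linarith) (by linarith)
    · rw [f1]
      rcases N_cases (D + c) b (by linarith) with ⟨k2, f2⟩ | ⟨k2, k2', f2⟩ | ⟨k2, f2⟩
      · rw [f2]
        exact c213 a b c D ha hb hc hD (by linarith) (by linarith) (by linarith) (by linarith) (by linarith)
      · rw [f2]
        exact c223 a b c D ha hb hc hD (by linarith) (by linarith) (by linarith) (by linarith) (by linarith) (by linarith)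
      · rw [f2]
        exact c233 a b c D ha hb hc hD (by linarith) (by linarith) (by linarith) (by linarith) (by linarith)
    · rw [f1]
      rcases N_cases (D + c) b (by linarith) with ⟨k2, f2⟩ | ⟨k2, k2', f2⟩ | ⟨k2, f2⟩
      · rw [f2]
        exact c313 a b c D ha hb hc hD (by linarith) (by linarith) (by linarith) (by linarith)
      · rw [f2]
        exact c323 a b c D ha hb hc hD (by linarith) (by linarith) (by linarith) (by linarith) (by linarith)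
      · rw [f2]
        exact c333 a b c D ha hb hc hD (by linarith) (by linarith) (by linarith) (by linarith)

/-- numerically true; piecewise quadratic. Perhaps useful: `N E x ≤ x^2/4`, `N E x ≤ 9/4*E^2`,
`N` is increasing in `E` and in `x` (for nonnegative arguments), `N D m ≥ min (m^2/4) ...`. -/
theorem N_ineq {a b c D : ℝ} (ha : 0 ≤ a) (hb : 0 ≤ b) (hc : 0 ≤ c) (hD : 0 ≤ D) :
    N (D + b) a + N (D + c) b + N (D + a) c ≤ (a * b + b * c + c * a) / 2 + N D (a + b + c) := by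
  rcases le_total c (D + a) with h | h
  · exact N_aux ha hb hc hD h
  · rcases le_total a (D + b) with h' | h'
    · have h1 := N_aux hb hc ha hD h'
      rw [show b + c + a = a + b + c by ring] at h1
      linarith
    · have h1 := N_aux hc ha hb hD (show b ≤ D + c by linarith)
      rw [show c + a + b = a + b + c by ring] at h1
      linarith


end Pool.Agent.Helper72_TT.TE
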