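import Pool.Agent.Helper72_TT.Defs

set_option autoImplicit false

namespace Pool.Agent.Helper72_TT.TF


theorem c2a {a b c : ℝ} (h1 : 0 ≤ -(1/8)*a + (9/8)*b) (h2 : 0 ≤ (1/8)*a - (1/8)*c) (h3 : 0 ≤ -(1/8)*b + (1/8)*c) :
    a*b*c + (a^2*b + b^2*c + c^2*a)/2 + 3/32*(a-b)^3 ≤ 5/54*(a+b+c)^3 := by
  obtain ⟨u, hu⟩ : ∃ t : ℝ, t = -(1/8)*a + (9/8)*b := ⟨_, rfl⟩
  have hu0 : 0 ≤ u := by rw [hu]; exact h1
  obtain ⟨v, hv⟩ : ∃ t : ℝ, t = (1/8)*a - (1/8)*c := ⟨_, rfl⟩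
  have hv0 : 0 ≤ v := by rw [hv]; exact h2
  obtain ⟨w, hw⟩ : ∃ t : ℝ, t = -(1/8)*b + (1/8)*c := ⟨_, rfl⟩
  have hw0 : 0 ≤ w := by rw [hw]; exact h3
  have ea : a = (1)*u + (9)*v + (9)*w := by linarith
  have eb : b = (1)*u + (1)*v + (1)*w := by linarith
  have ec : c = (1)*u + (1)*v + (9)*w := by linarith
  clear hu hv hw h1 h2 h3
  rw [ea, eb, ec, ← sub_nonneg]
  clear ea eb ec
  have pos : 0 ≤ (64/3)*(u*v^2) + (64/3)*(u*v*w) + (64/3)*(u*w^2) + (560/27)*(v^3) + (1648/9)*(v^2*w) + (1904/9)*(v*w^2) + (2608/27)*(w^3) := by positivity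
  refine le_of_le_of_eq pos ?_
  ring

theorem c2b1 {a b c : ℝ} (h1 : 0 ≤ (1)*a - (9)*b) (h2 : 0 ≤ (9/8)*b - (1/8)*c) (h3 : 0 ≤ -(1/8)*b + (1/8)*c) :
    a*b*c + (a^2*b + b^2*c + c^2*a)/2 + 3/32*(a-b)^3 - 1/864*(a-9*b)^3 ≤ 5/54*(a+b+c)^3 := by
  obtain ⟨u, hu⟩ : ∃ t : ℝ, t = (1)*a - (9)*b := ⟨_, rfl⟩
  have hu0 : 0 ≤ u := by rw [hu]; exact h1
  obtain ⟨v, hv⟩ : ∃ t : ℝ, t = (9/8)*b - (1/8)*c := ⟨_, rfl⟩
  have hv0 : 0 ≤ v := by rw [hv]; exact h2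
  obtain ⟨w, hw⟩ : ∃ t : ℝ, t = -(1/8)*b + (1/8)*c := ⟨_, rfl⟩
  have hw0 : 0 ≤ w := by rw [hw]; exact h3
  have ea : a = (1)*u + (9)*v + (9)*w := by linarith
  have eb : b = (1)*v + (1)*w := by linarith
  have ec : c = (1)*v + (9)*w := by linarith
  clear hu hv hw h1 h2 h3
  rw [ea, eb, ec, ← sub_nonneg]
  clear ea eb ec
  have pos : 0 ≤ (11/36)*(u^2*v) + (91/36)*(u^2*w) + (46/9)*(u*v^2) + (388/9)*(u*v*w) + (214/9)*(u*w^2) + (560/27)*(v^3) + (1648/9)*(v^2*w) + (1904/9)*(v*w^2) + (2608/27)*(w^3) := by positivity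
  refine le_of_le_of_eq pos ?_
  ring

theorem c2b2 {a b c : ℝ} (h1 : 0 ≤ (1)*a - (1)*c) (h2 : 0 ≤ -(9)*b + (1)*c) (h3 : 0 ≤ (1)*b) :
    a*b*c + (a^2*b + b^2*c + c^2*a)/2 + 3/32*(a-b)^3 - 1/864*(a-9*b)^3 ≤ 5/54*(a+b+c)^3 := by
  obtain ⟨u, hu⟩ : ∃ t : ℝ, t = (1)*a - (1)*c := ⟨_, rfl⟩
  have hu0 : 0 ≤ u := by rw [hu]; exact h1
  obtain ⟨v, hv⟩ : ∃ t : ℝ, t = -(9)*b + (1)*c := ⟨_, rfl⟩
  have hv0 : 0 ≤ v := by rw [hv]; exact h2
  obtain ⟨w, hw⟩ : ∃ t : ℝ, t = (1)*b := ⟨_, rfl⟩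
  have hw0 : 0 ≤ w := by rw [hw]; exact h3
  have ea : a = (1)*u + (1)*v + (9)*w := by linarith
  have eb : b = (1)*w := by linarith
  have ec : c = (1)*v + (9)*w := by linarith
  clear hu hv hw h1 h2 h3
  rw [ea, eb, ec, ← sub_nonneg]
  clear ea eb ec
  have pos : 0 ≤ (5/18)*(u^2*v) + (91/36)*(u^2*w) + (1/3)*(u*v^2) + (101/18)*(u*v*w) + (214/9)*(u*w^2) + (4/27)*(v^3) + (139/36)*(v^2*w) + (302/9)*(v*w^2) + (2608/27)*(w^3) := by positivity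
  refine le_of_le_of_eq pos ?_
  ring

theorem c1a1 {a b c : ℝ} (h1 : 0 ≤ -(1/8)*a + (9/8)*c) (h2 : 0 ≤ (1/8)*b - (1/8)*c) (h3 : 0 ≤ (1/8)*a - (1/8)*b) :
    a*b*c + (a^2*b + b^2*c + c^2*a)/2 + 3/32*(a-b)^3 + 3/32*(b-c)^3 ≤ 5/54*(a+b+c)^3 := by
  obtain ⟨u, hu⟩ : ∃ t : ℝ, t = -(1/8)*a + (9/8)*c := ⟨_, rfl⟩
  have hu0 : 0 ≤ u := by rw [hu]; exact h1
  obtain ⟨v, hv⟩ : ∃ t : ℝ, t = (1/8)*b - (1/8)*c := ⟨_, rfl⟩
  have hv0 : 0 ≤ v := by rw [hv]; exact h2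
  obtain ⟨w, hw⟩ : ∃ t : ℝ, t = (1/8)*a - (1/8)*b := ⟨_, rfl⟩
  have hw0 : 0 ≤ w := by rw [hw]; exact h3
  have ea : a = (1)*u + (9)*v + (9)*w := by linarith
  have eb : b = (1)*u + (9)*v + (1)*w := by linarith
  have ec : c = (1)*u + (1)*v + (1)*w := by linarith
  clear hu hv hw h1 h2 h3
  rw [ea, eb, ec, ← sub_nonneg]
  clear ea eb ec
  have pos : 0 ≤ (64/3)*(u*v^2) + (64/3)*(u*v*w) + (64/3)*(u*w^2) + (2608/27)*(v^3) + (896/9)*(v^2*w) + (640/9)*(v*w^2) + (560/27)*(w^3) := by positivity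
  refine le_of_le_of_eq pos ?_
  ring

theorem c1a2 {a b c : ℝ} (h1 : 0 ≤ -(1/72)*a + (1/8)*b) (h2 : 0 ≤ -(1/8)*b + (9/8)*c) (h3 : 0 ≤ (1/72)*a - (1/8)*c) :
    a*b*c + (a^2*b + b^2*c + c^2*a)/2 + 3/32*(a-b)^3 + 3/32*(b-c)^3 ≤ 5/54*(a+b+c)^3 := by
  obtain ⟨u, hu⟩ : ∃ t : ℝ, t = -(1/72)*a + (1/8)*b := ⟨_, rfl⟩
  have hu0 : 0 ≤ u := by rw [hu]; exact h1
  obtain ⟨v, hv⟩ : ∃ t : ℝ, t = -(1/8)*b + (9/8)*c := ⟨_, rfl⟩
  have hv0 : 0 ≤ v := by rw [hv]; exact h2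
  obtain ⟨w, hw⟩ : ∃ t : ℝ, t = (1/72)*a - (1/8)*c := ⟨_, rfl⟩
  have hw0 : 0 ≤ w := by rw [hw]; exact h3
  have ea : a = (9)*u + (9)*v + (81)*w := by linarith
  have eb : b = (9)*u + (1)*v + (9)*w := by linarith
  have ec : c = (1)*u + (1)*v + (1)*w := by linarith
  clear hu hv hw h1 h2 h3
  rw [ea, eb, ec, ← sub_nonneg]
  clear ea eb ec
  have pos : 0 ≤ (2608/27)*(u^3) + (896/9)*(u^2*v) + (8944/9)*(u^2*w) + (640/9)*(u*v^2) + (11584/9)*(u*v*w) + (51568/9)*(u*w^2) + (560/27)*(v^3) + (3952/9)*(v^2*w) + (24944/9)*(v*w^2) + (118816/27)*(w^3) := by positivity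
  refine le_of_le_of_eq pos ?_
  ring

theorem c1b1 {a b c : ℝ} (h1 : 0 ≤ -(1/8)*a + (9/8)*b - (9)*c) (h2 : 0 ≤ (1/8)*a - (1/8)*b) (h3 : 0 ≤ (1)*c) :
    a*b*c + (a^2*b + b^2*c + c^2*a)/2 + 3/32*(a-b)^3 + 3/32*(b-c)^3 - 1/864*(b-9*c)^3 ≤ 5/54*(a+b+c)^3 := by
  obtain ⟨u, hu⟩ : ∃ t : ℝ, t = -(1/8)*a + (9/8)*b - (9)*c := ⟨_, rfl⟩
  have hu0 : 0 ≤ u := by rw [hu]; exact h1
  obtain ⟨v, hv⟩ : ∃ t : ℝ, t = (1/8)*a - (1/8)*b := ⟨_, rfl⟩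
  have hv0 : 0 ≤ v := by rw [hv]; exact h2
  obtain ⟨w, hw⟩ : ∃ t : ℝ, t = (1)*c := ⟨_, rfl⟩
  have hw0 : 0 ≤ w := by rw [hw]; exact h3
  have ea : a = (1)*u + (9)*v + (9)*w := by linarith
  have eb : b = (1)*u + (1)*v + (9)*w := by linarith
  have ec : c = (1)*w := by linarith
  clear hu hv hw h1 h2 h3
  rw [ea, eb, ec, ← sub_nonneg]
  clear ea eb ec
  have pos : 0 ≤ (4/27)*(u^3) + (4/3)*(u^2*v) + (139/36)*(u^2*w) + (52/9)*(u*v^2) + (443/18)*(u*v*w) + (302/9)*(u*w^2) + (4)*(v^3) + (2539/36)*(v^2*w) + (1006/9)*(v*w^2) + (2608/27)*(w^3) := by positivity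
  refine le_of_le_of_eq pos ?_
  ring

theorem c1b2 {a b c : ℝ} (h1 : 0 ≤ (1)*b - (9)*c) (h2 : 0 ≤ -(1/72)*a + (1/8)*b) (h3 : 0 ≤ (1/72)*a - (1/8)*b + (1)*c) :
    a*b*c + (a^2*b + b^2*c + c^2*a)/2 + 3/32*(a-b)^3 + 3/32*(b-c)^3 - 1/864*(b-9*c)^3 ≤ 5/54*(a+b+c)^3 := by
  obtain ⟨u, hu⟩ : ∃ t : ℝ, t = (1)*b - (9)*c := ⟨_, rfl⟩
  have hu0 : 0 ≤ u := by rw [hu]; exact h1
  obtain ⟨v, hv⟩ : ∃ t : ℝ, t = -(1/72)*a + (1/8)*b := ⟨_, rfl⟩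
  have hv0 : 0 ≤ v := by rw [hv]; exact h2
  obtain ⟨w, hw⟩ : ∃ t : ℝ, t = (1/72)*a - (1/8)*b + (1)*c := ⟨_, rfl⟩
  have hw0 : 0 ≤ w := by rw [hw]; exact h3
  have ea : a = (9)*u + (9)*v + (81)*w := by linarith
  have eb : b = (1)*u + (9)*v + (9)*w := by linarith
  have ec : c = (1)*v + (1)*w := by linarith
  clear hu hv hw h1 h2 h3
  rw [ea, eb, ec, ← sub_nonneg]
  clear ea eb ec
  have pos : 0 ≤ (4)*(u^3) + (2539/36)*(u^2*v) + (4555/36)*(u^2*w) + (1006/9)*(u*v^2) + (11444/9)*(u*v*w) + (11734/9)*(u*w^2) + (2608/27)*(v^3) + (8944/9)*(v^2*w) + (51568/9)*(v*w^2) + (118816/27)*(w^3) := by positivity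
  refine le_of_le_of_eq pos ?_
  ring

theorem c1c {a b c : ℝ} (h1 : 0 ≤ (1)*a - (9)*b) (h2 : 0 ≤ -(1/8)*b + (9/8)*c) (h3 : 0 ≤ (1/8)*b - (1/8)*c) :
    a*b*c + (a^2*b + b^2*c + c^2*a)/2 + 3/32*(a-b)^3 + 3/32*(b-c)^3 - 1/864*(a-9*b)^3 ≤ 5/54*(a+b+c)^3 := by
  obtain ⟨u, hu⟩ : ∃ t : ℝ, t = (1)*a - (9)*b := ⟨_, rfl⟩
  have hu0 : 0 ≤ u := by rw [hu]; exact h1
  obtain ⟨v, hv⟩ : ∃ t : ℝ, t = -(1/8)*b + (9/8)*c := ⟨_, rfl⟩
  have hv0 : 0 ≤ v := by rw [hv]; exact h2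
  obtain ⟨w, hw⟩ : ∃ t : ℝ, t = (1/8)*b - (1/8)*c := ⟨_, rfl⟩
  have hw0 : 0 ≤ w := by rw [hw]; exact h3
  have ea : a = (1)*u + (9)*v + (81)*w := by linarith
  have eb : b = (1)*v + (9)*w := by linarith
  have ec : c = (1)*v + (1)*w := by linarith
  clear hu hv hw h1 h2 h3
  rw [ea, eb, ec, ← sub_nonneg]
  clear ea eb ec
  have pos : 0 ≤ (11/36)*(u^2*v) + (19/36)*(u^2*w) + (46/9)*(u*v^2) + (532/9)*(u*v*w) + (934/9)*(u*w^2) + (560/27)*(v^3) + (3952/9)*(v^2*w) + (24944/9)*(v*w^2) + (118816/27)*(w^3) := by positivity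
  refine le_of_le_of_eq pos ?_
  ring

theorem c1d {a b c : ℝ} (h1 : 0 ≤ (1)*a - (9)*b) (h2 : 0 ≤ (1)*b - (9)*c) (h3 : 0 ≤ (1)*c) :
    a*b*c + (a^2*b + b^2*c + c^2*a)/2 + 3/32*(a-b)^3 + 3/32*(b-c)^3 - 1/864*(a-9*b)^3 - 1/864*(b-9*c)^3 ≤ 5/54*(a+b+c)^3 := by
  obtain ⟨u, hu⟩ : ∃ t : ℝ, t = (1)*a - (9)*b := ⟨_, rfl⟩
  have hu0 : 0 ≤ u := by rw [hu]; exact h1
  obtain ⟨v, hv⟩ : ∃ t : ℝ, t = (1)*b - (9)*c := ⟨_, rfl⟩
  have hv0 : 0 ≤ v := by rw [hv]; exact h2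
  obtain ⟨w, hw⟩ : ∃ t : ℝ, t = (1)*c := ⟨_, rfl⟩
  have hw0 : 0 ≤ w := by rw [hw]; exact h3
  have ea : a = (1)*u + (9)*v + (81)*w := by linarith
  have eb : b = (1)*v + (9)*w := by linarith
  have ec : c = (1)*w := by linarith
  clear hu hv hw h1 h2 h3
  rw [ea, eb, ec, ← sub_nonneg]
  clear ea eb ec
  have pos : 0 ≤ (1/36)*(u^2*v) + (19/36)*(u^2*w) + (7/9)*(u*v^2) + (167/9)*(u*v*w) + (934/9)*(u*w^2) + (4)*(v^3) + (4555/36)*(v^2*w) + (11734/9)*(v*w^2) + (118816/27)*(w^3) := by positivity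
  refine le_of_le_of_eq pos ?_
  ring

theorem W_amax {a b c : ℝ} (ha : 0 ≤ a) (hb : 0 ≤ b) (hc : 0 ≤ c) (hab : b ≤ a) (hac : c ≤ a) :
    a * b * c + (a ^ 2 * b + b ^ 2 * c + c ^ 2 * a) / 4 + K b a + K c b + K a c
      ≤ 5 / 54 * (a + b + c) ^ 3 := by
  unfold K
  have m1 : max (a - b) 0 = a - b := max_eq_left (by linarith)
  have m2 : max (c - a) 0 = 0 := max_eq_right (by linarith)
  have m3 : max (c - 9 * a) 0 = 0 := max_eq_right (by linarith)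
  rw [m1, m2, m3]
  rcases le_total b c with hbc | hbc
  · have m4 : max (b - c) 0 = 0 := max_eq_right (by linarith)
    have m5 : max (b - 9 * c) 0 = 0 := max_eq_right (by linarith)
    rw [m4, m5]
    rcases le_total a (9 * b) with h9 | h9
    · have m6 : max (a - 9 * b) 0 = 0 := max_eq_right (by linarith)
      rw [m6]
      have := c2a (a := a) (b := b) (c := c) (by linarith) (by linarith) (by linarith)
      linarith
    · have m6 : max (a - 9 * b) 0 = a - 9 * b := max_eq_left (by linarith)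
      rw [m6]
      rcases le_total c (9 * b) with hs | hs
      · have := c2b1 (a := a) (b := b) (c := c) (by linarith) (by linarith) (by linarith)
        linarith
      · have := c2b2 (a := a) (b := b) (c := c) (by linarith) (by linarith) (by linarith)
        linarith
  · have m4 : max (b - c) 0 = b - c := max_eq_left (by linarith)
    rw [m4]
    rcases le_total a (9 * b) with h9 | h9
    · have m6 : max (a - 9 * b) 0 = 0 := max_eq_right (by linarith)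
      rw [m6]
      rcases le_total b (9 * c) with h8 | h8
      · have m5 : max (b - 9 * c) 0 = 0 := max_eq_right (by linarith)
        rw [m5]
        rcases le_total a (9 * c) with hs | hs
        · have := c1a1 (a := a) (b := b) (c := c) (by linarith) (by linarith) (by linarith)
          linarith
        · have := c1a2 (a := a) (b := b) (c := c) (by linarith) (by linarith) (by linarith)
          linarith
      · have m5 : max (b - 9 * c) 0 = b - 9 * c := max_eq_left (by linarith)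
        rw [m5]
        rcases le_total (a + 72 * c) (9 * b) with hs | hs
        · have := c1b1 (a := a) (b := b) (c := c) (by linarith) (by linarith) (by linarith)
          linarith
        · have := c1b2 (a := a) (b := b) (c := c) (by linarith) (by linarith) (by linarith)
          linarith
    · have m6 : max (a - 9 * b) 0 = a - 9 * b := max_eq_left (by linarith)
      rw [m6]
      rcases le_total b (9 * c) with h8 | h8
      · have m5 : max (b - 9 * c) 0 = 0 := max_eq_right (by linarith)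
        rw [m5]
        have := c1c (a := a) (b := b) (c := c) (by linarith) (by linarith) (by linarith)
        linarith
      · have m5 : max (b - 9 * c) 0 = b - 9 * c := max_eq_left (by linarith)
        rw [m5]
        have := c1d (a := a) (b := b) (c := c) (by linarith) (by linarith) (by linarith)
        linarith

theorem W_zero {a b c : ℝ} (ha : 0 ≤ a) (hb : 0 ≤ b) (hc : 0 ≤ c) :
    a * b * c + (a ^ 2 * b + b ^ 2 * c + c ^ 2 * a) / 4 + K b a + K c b + K a c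
      ≤ 5 / 54 * (a + b + c) ^ 3 := by
  rcases le_total b a with hab | hab
  · rcases le_total c a with hac | hac
    · exact W_amax ha hb hc hab hac
    · have := W_amax (a := c) (b := a) (c := b) hc ha hb hac (by linarith)
      have e : (c + a + b) = a + b + c := by ring
      rw [e] at this
      linarith
  · rcases le_total c b with hbc | hbc
    · have := W_amax (a := b) (b := c) (c := a) hb hc ha hbc hab
      have e : (b + c + a) = a + b + c := by ring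
      rw [e] at this
      linarith
    · have := W_amax (a := c) (b := a) (c := b) hc ha hb (by linarith) hbc
      have e : (c + a + b) = a + b + c := by ring
      rw [e] at this
      linarith


end Pool.Agent.Helper72_TT.TF
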