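import Pool.Agent.Helper72_TT.Ana
import Pool.Agent.Helper72_TT.TE
import Pool.Agent.Helper72_TT.TF

set_option autoImplicit false

namespace Pool.Agent.Helper72_TT

theorem W_D {a b c D : ℝ} (ha : 0 ≤ a) (hb : 0 ≤ b) (hc : 0 ≤ c) (hD : 0 ≤ D) :
    a * b * c + (a ^ 2 * b + b ^ 2 * c + c ^ 2 * a) / 4 + K (D + b) a + K (D + c) b +
      K (D + a) c ≤ D * (a * b + b * c + c * a) / 2 + K D (a + b + c) := by
  have hsh : ∀ t u x : ℝ, HasDerivAt (fun y => K (y + u) x) (TE.N (t + u) x) t := fun t u x =>
    (TE.hasDerivAt_K_left (t + u) x).comp_add_const t u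
  have hlin : ∀ t : ℝ, HasDerivAt (fun y : ℝ => y * (a * b + b * c + c * a) / 2)
      ((a * b + b * c + c * a) / 2) t := by
    intro t
    have := ((hasDerivAt_id t).mul_const (a * b + b * c + c * a)).div_const 2
    simpa using this
  have h := nonneg_of_deriv
    (f := fun t => t * (a * b + b * c + c * a) / 2 + K t (a + b + c) - K (t + b) a - K (t + c) b
      - K (t + a) c - (K 0 (a + b + c) - K b a - K c b - K a c))
    (f' := fun t => (a * b + b * c + c * a) / 2 + TE.N t (a + b + c) - TE.N (t + b) a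
      - TE.N (t + c) b - TE.N (t + a) c)
    (fun t => (((((hlin t).add (TE.hasDerivAt_K_left t (a + b + c))).sub (hsh t b a)).sub
      (hsh t c b)).sub (hsh t a c)).sub_const _)
    (by simp)
    (fun t ht => by
      have := TE.N_ineq (a := a) (b := b) (c := c) (D := t) ha hb hc ht
      linarith) hD
  have h0 := TF.W_zero ha hb hc
  have h1 : K 0 (a + b + c) = 5 / 54 * (a + b + c) ^ 3 := K_zero_left (by positivity)
  rw [h1] at h
  linarith

end Pool.Agent.Helper72_TT
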