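import Pool.Agent.Helper72_TT.Three
import Pool.Agent.Helper72_TT.Wd
import Pool.Agent.Helper72_TT.Trans

set_option autoImplicit false
open Finset

namespace Pool.Agent.Helper72_TT

variable {V : Type} [DecidableEq V] {H : Finset (Finset V)}

/-- if a transversal triple is an edge, no outside vertex is joined to pairs in different sets -/
theorem Sset_empty (hF : Free H) {A B C N : Finset V} (hAB : Disjoint A B)
    (hBC : Disjoint B C) (hCA : Disjoint C A) (hN : Disjoint (A ∪ B ∪ C) N)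
    (hA : IsMod H A) (hB : IsMod H B) (hC : IsMod H C) (hp : PairCond H A B C)
    {x y w : V} (hx : x ∈ A) (hy : y ∈ B) (hw : w ∈ C) (hH : ({x, y, w} : Finset V) ∈ H) :
    Sset H A B N = ∅ := by
  classical
  rw [eq_empty_iff_forall_notMem]
  intro z hz
  have hzN : z ∈ N := (mem_filter.1 hz).1
  have hz' : z ∉ A ∪ B ∪ C := fun h => disjoint_left.1 hN h hzN
  have hN' : Disjoint (A ∪ B) N := hN.mono_left subset_union_left
  have e1 := Sset_all hAB hN' hA hB hz hx hy
  have e2 := (hp z hz' x hx y hy w hw).1.1 e1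
  have e3 := (hp z hz' x hx y hy w hw).2.1 e2
  have n1 : x ≠ y := fun h => disjoint_left.1 hAB hx (h ▸ hy)
  have n2 : y ≠ w := fun h => disjoint_left.1 hBC hy (h ▸ hw)
  have n3 : x ≠ w := fun h => disjoint_left.1 hCA hw (h ▸ hx)
  have m1 : x ≠ z := fun h => hz' (h ▸ by simp [hx])
  have m2 : y ≠ z := fun h => hz' (h ▸ by simp [hy])
  have m3 : w ≠ z := fun h => hz' (h ▸ by simp [hw])
  exact hF x y w z n1 n3 m1 n2 m2 m3 hH e1 e3 e2

theorem claim_cyc (h3 : ∀ e ∈ H, e.card = 3) (hF : Free H) {A B C : Finset V}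
    (hAB : Disjoint A B) (hBC : Disjoint B C) (hCA : Disjoint C A)
    (hAn : A.Nonempty) (hBn : B.Nonempty) (hCn : C.Nonempty)
    (hA : IsMod H A) (hB : IsMod H B) (hC : IsMod H C)
    (hW : IsMod H (A ∪ B ∪ C)) (hp0 : (Tr A B C ∩ H).Nonempty → PairCond H A B C)
    (h1 : Arrow H A B) (h2 : Arrow H B C) (h4 : Arrow H C A)
    (cA : Claim H A) (cB : Claim H B) (cC : Claim H C) : Claim H (A ∪ B ∪ C) := by
  classical
  intro N D hWN hD hDN hI
  have hABC : Disjoint (A ∪ B) C := disjoint_union_left.2 ⟨hCA.symm, hBC⟩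
  have hc : ((A ∪ B ∪ C).card : ℝ) = A.card + B.card + C.card := by
    rw [card_union_of_disjoint hABC, card_union_of_disjoint hAB]; push_cast; ring
  have sA : A ⊆ A ∪ B ∪ C := subset_union_left.trans subset_union_left
  have sB : B ⊆ A ∪ B ∪ C := subset_union_right.trans subset_union_left
  have sC : C ⊆ A ∪ B ∪ C := subset_union_right
  obtain ⟨a1, a2⟩ := state_bound hF hAB hA hB hW hWN sA sB hAn hBn hD hDN hI cA
  obtain ⟨b1, b2⟩ := state_bound hF hBC hB hC hW hWN sB sC hBn hCn hD hDN hI cB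
  obtain ⟨c1, c2⟩ := state_bound hF hCA hC hA hW hWN sC sA hCn hAn hD hDN hI cC
  have hsub := val_three_subset h3 hAB hBC hCA hWN h1 h2 h4
  have hcard := card_le_card hsub
  set SA := Sset H A B N with hSA
  set SB := Sset H B C N with hSB
  set SC := Sset H C A N with hSC
  have u1 := card_union_le (val H A (N ∪ B) ∪ val H B (N ∪ C) ∪ val H C (N ∪ A) ∪
      Tr A B SA ∪ Tr B C SB ∪ Tr C A SC) (Tr A B C ∩ H)
  have u2 := card_union_le (val H A (N ∪ B) ∪ val H B (N ∪ C) ∪ val H C (N ∪ A) ∪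
      Tr A B SA ∪ Tr B C SB) (Tr C A SC)
  have u3 := card_union_le (val H A (N ∪ B) ∪ val H B (N ∪ C) ∪ val H C (N ∪ A) ∪
      Tr A B SA) (Tr B C SB)
  have u4 := card_union_le (val H A (N ∪ B) ∪ val H B (N ∪ C) ∪ val H C (N ∪ A)) (Tr A B SA)
  have u5 := card_union_le (val H A (N ∪ B) ∪ val H B (N ∪ C)) (val H C (N ∪ A))
  have u6 := card_union_le (val H A (N ∪ B)) (val H B (N ∪ C))
  have t1 := card_Tr_le A B SA
  have t2 := card_Tr_le B C SB
  have t3 := card_Tr_le C A SC
  have tot : (val H (A ∪ B ∪ C) N).card ≤ (val H A (N ∪ B)).card + (val H B (N ∪ C)).card +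
      (val H C (N ∪ A)).card + A.card * B.card * SA.card + B.card * C.card * SB.card +
      C.card * A.card * SC.card + (Tr A B C ∩ H).card := by omega
  have totR : ((val H (A ∪ B ∪ C) N).card : ℝ) ≤ (val H A (N ∪ B)).card +
      (val H B (N ∪ C)).card + (val H C (N ∪ A)).card + A.card * B.card * SA.card +
      B.card * C.card * SB.card + C.card * A.card * SC.card + (Tr A B C ∩ H).card := by
    exact_mod_cast tot
  have pa : (0 : ℝ) ≤ A.card := Nat.cast_nonneg _
  have pb : (0 : ℝ) ≤ B.card := Nat.cast_nonneg _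
  have pc : (0 : ℝ) ≤ C.card := Nat.cast_nonneg _
  rw [hc]
  by_cases hT : (Tr A B C ∩ H) = ∅
  · rw [hT, card_empty, Nat.cast_zero] at totR
    have g1 := step_two (p := A.card) (q := B.card) (D := D)
      (s := 2 * (SA.card : ℝ) - N.card) pa pb hD a1
    have g2 := step_two (p := B.card) (q := C.card) (D := D)
      (s := 2 * (SB.card : ℝ) - N.card) pb pc hD b1
    have g3 := step_two (p := C.card) (q := A.card) (D := D)
      (s := 2 * (SC.card : ℝ) - N.card) pc pa hD c1
    have g4 := K_super (a := A.card) (b := B.card) (c := C.card) (D := D) pa pb pc hD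
    have g5 : ((C.card : ℝ) + A.card) = (A.card : ℝ) + C.card := by ring
    nlinarith [totR, a2, b2, c2, g1, g2, g3, g4]
  · have hp := hp0 (nonempty_iff_ne_empty.2 hT)
    obtain ⟨e, he⟩ := nonempty_iff_ne_empty.2 hT
    rw [mem_inter] at he
    unfold Tr at he
    rw [mem_image] at he
    obtain ⟨⟨t, ht, hte⟩, heH⟩ := he
    simp only [mem_product] at ht
    rw [← hte] at heH
    have r1 : SA = ∅ := Sset_empty hF hAB hBC hCA hWN hA hB hC hp ht.1 ht.2.1 ht.2.2 heH
    have hWN1 : Disjoint (B ∪ C ∪ A) N := by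
      have : B ∪ C ∪ A = A ∪ B ∪ C := by
        ext a; simp only [mem_union]; tauto
      rw [this]; exact hWN
    have hWN2 : Disjoint (C ∪ A ∪ B) N := by
      have : C ∪ A ∪ B = A ∪ B ∪ C := by
        ext a; simp only [mem_union]; tauto
      rw [this]; exact hWN
    have r2 : SB = ∅ := by
      refine Sset_empty hF hBC hCA hAB hWN1 hB hC hA (pair_rot hp) ht.2.1 ht.2.2 ht.1 ?_
      rw [← perm3]; exact heH
    have r3 : SC = ∅ := by
      refine Sset_empty hF hCA hAB hBC hWN2 hC hA hB (pair_rot (pair_rot hp)) ht.2.2 ht.1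
        ht.2.1 ?_
      rw [← perm4]; exact heH
    rw [r1, card_empty] at a2 totR
    rw [r2, card_empty] at b2 totR
    rw [r3, card_empty] at c2 totR
    have hTc : ((Tr A B C ∩ H).card : ℝ) ≤ A.card * B.card * C.card := by
      exact_mod_cast (card_le_card inter_subset_left).trans (card_Tr_le A B C)
    have mono : ∀ q x : ℝ, 0 ≤ q → 0 ≤ x →
        K (max 0 (max (D - q) (q + min D (-(2 * ((0 : ℕ) : ℝ) - N.card))))) x ≤
        K (D + q) x := by
      intro q x hq hx
      refine K_mono (le_max_left _ _) ?_ hx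
      have : min D (-(2 * ((0 : ℕ) : ℝ) - N.card)) ≤ D := min_le_left _ _
      exact max_le (by linarith) (max_le (by linarith) (by linarith))
    have m1 := mono B.card A.card pb pa
    have m2 := mono C.card B.card pc pb
    have m3 := mono A.card C.card pa pc
    have hWd := W_D (a := A.card) (b := B.card) (c := C.card) (D := D) pa pb pc hD
    have q0 : (0 : ℝ) ≤ A.card * B.card + B.card * C.card + C.card * A.card := by positivity
    have hq := mul_le_mul_of_nonneg_right hDN q0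
    have a3 := a2.trans (add_le_add_right m1 _)
    have b3 := b2.trans (add_le_add_right m2 _)
    have c3 := c2.trans (add_le_add_right m3 _)
    clear a2 b2 c2 m1 m2 m3 mono
    simp only [Nat.cast_zero, mul_zero, add_zero] at totR
    generalize K (D + (B.card : ℝ)) A.card = k1 at *
    generalize K (D + (C.card : ℝ)) B.card = k2 at *
    generalize K (D + (A.card : ℝ)) C.card = k3 at *
    generalize K D ((A.card : ℝ) + B.card + C.card) = k4 at *
    linarith

/-- if a triple of vertices in three different sets is an edge, then an outside vertex forms no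
edge with a pair of vertices in different sets -/
def TCond (H : Finset (Finset V)) (A B C : Finset V) : Prop :=
  ∀ x ∈ A, ∀ y ∈ B, ∀ w ∈ C, ({x, y, w} : Finset V) ∈ H → ∀ z, z ∉ A ∪ B ∪ C →
    ({x, y, z} : Finset V) ∉ H ∧ ({y, w, z} : Finset V) ∉ H ∧ ({x, w, z} : Finset V) ∉ H

/-- the transversal triples of three modules are all edges or all non-edges -/
theorem trans_all {A B C : Finset V} (hAB : Disjoint A B) (hBC : Disjoint B C)
    (hAC : Disjoint A C) (hA : IsMod H A) (hB : IsMod H B) (hC : IsMod H C)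
    {x y w x' y' w' : V} (hx : x ∈ A) (hy : y ∈ B) (hw : w ∈ C) (hx' : x' ∈ A) (hy' : y' ∈ B)
    (hw' : w' ∈ C) (h : ({x, y, w} : Finset V) ∈ H) : ({x', y', w'} : Finset V) ∈ H := by
  have nAB : ∀ a ∈ A, a ∉ B := fun a ha hb => disjoint_left.1 hAB ha hb
  have nBA : ∀ a ∈ B, a ∉ A := fun a ha hb => disjoint_left.1 hAB hb ha
  have nAC : ∀ a ∈ A, a ∉ C := fun a ha hb => disjoint_left.1 hAC ha hb
  have nCA : ∀ a ∈ C, a ∉ A := fun a ha hb => disjoint_left.1 hAC hb ha
  have nBC : ∀ a ∈ B, a ∉ C := fun a ha hb => disjoint_left.1 hBC ha hb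
  have nCB : ∀ a ∈ C, a ∉ B := fun a ha hb => disjoint_left.1 hBC hb ha
  have e1 : ({x', y, w} : Finset V) ∈ H :=
    hA x hx x' hx' y (nBA y hy) w (nCA w hw) (fun e => nBC y hy (e ▸ hw)) h
  have e2 : ({y', x', w} : Finset V) ∈ H := by
    rw [perm1] at e1
    exact hB y hy y' hy' x' (nAB x' hx') w (nCB w hw) (fun e => nAC x' hx' (e ▸ hw)) e1
  have e3 : ({w', y', x'} : Finset V) ∈ H := by
    rw [perm4] at e2
    exact hC w hw w' hw' y' (nBC y' hy') x' (nAC x' hx') (fun e => nAB x' hx' (e ▸ hy')) e2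
  rw [perm5]
  exact e3

theorem pair_of_T {A B C : Finset V} (hAB : Disjoint A B) (hBC : Disjoint B C)
    (hAC : Disjoint A C) (hA : IsMod H A) (hB : IsMod H B) (hC : IsMod H C)
    (hT : TCond H A B C) {x y w : V} (hx : x ∈ A) (hy : y ∈ B) (hw : w ∈ C)
    (h : ({x, y, w} : Finset V) ∈ H) : PairCond H A B C := by
  intro z hz x' hx' y' hy' w' hw'
  have h' := trans_all hAB hBC hAC hA hB hC hx hy hw hx' hy' hw' h
  obtain ⟨g1, g2, g3⟩ := hT x' hx' y' hy' w' hw' h' z hz
  exact ⟨⟨fun e => absurd e g1, fun e => absurd e g2⟩, ⟨fun e => absurd e g2, fun e => absurd e g3⟩⟩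

theorem claim_three (h3 : ∀ e ∈ H, e.card = 3) (hF : Free H) {A B C : Finset V}
    (hAB : Disjoint A B) (hBC : Disjoint B C) (hAC : Disjoint A C)
    (hAn : A.Nonempty) (hBn : B.Nonempty) (hCn : C.Nonempty)
    (hA : IsMod H A) (hB : IsMod H B) (hC : IsMod H C)
    (hW : IsMod H (A ∪ B ∪ C)) (hT : TCond H A B C)
    (cA : Claim H A) (cB : Claim H B) (cC : Claim H C) : Claim H (A ∪ B ∪ C) := by
  have eACB : A ∪ C ∪ B = A ∪ B ∪ C := by ext a; simp only [mem_union]; tauto
  have eBCA : B ∪ C ∪ A = A ∪ B ∪ C := by ext a; simp only [mem_union]; tauto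
  have eBAC : B ∪ A ∪ C = A ∪ B ∪ C := by ext a; simp only [mem_union]; tauto
  have eCAB : C ∪ A ∪ B = A ∪ B ∪ C := by ext a; simp only [mem_union]; tauto
  have eCBA : C ∪ B ∪ A = A ∪ B ∪ C := by ext a; simp only [mem_union]; tauto
  by_cases hE : ∃ x ∈ A, ∃ y ∈ B, ∃ w ∈ C, ({x, y, w} : Finset V) ∈ H
  · obtain ⟨x0, hx0, y0, hy0, w0, hw0, hH⟩ := hE
    have hp : PairCond H A B C := pair_of_T hAB hBC hAC hA hB hC hT hx0 hy0 hw0 hH
    have hpACB : PairCond H A C B := pair_rot (pair_swap hp)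
    have hpBCA : PairCond H B C A := pair_rot hp
    have sinkC : Arrow H A C → Arrow H B C → Claim H (A ∪ B ∪ C) := fun x y =>
      claim_sink h3 hF hAB hAC hBC hAn hBn hCn hA hB hC hW hp x y cA cB cC
    have sinkB : Arrow H A B → Arrow H C B → Claim H (A ∪ B ∪ C) := fun x y => by
      have := claim_sink h3 hF hAC hAB hBC.symm hAn hCn hBn hA hC hB (eACB ▸ hW) hpACB x y cA cC cB
      rwa [eACB] at this
    have sinkA : Arrow H B A → Arrow H C A → Claim H (A ∪ B ∪ C) := fun x y => by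
      have := claim_sink h3 hF hBC hAB.symm hAC.symm hBn hCn hAn hB hC hA (eBCA ▸ hW) hpBCA
        x y cB cC cA
      rwa [eBCA] at this
    rcases arrow_or hF hAB hA hB with x | x <;> rcases arrow_or hF hBC hB hC with y | y <;>
      rcases arrow_or hF hAC hA hC with z | z
    · exact sinkC z y
    · exact claim_cyc h3 hF hAB hBC hAC.symm hAn hBn hCn hA hB hC hW (fun _ => hp) x y z cA cB cC
    · exact sinkB x y
    · exact sinkB x y
    · exact sinkC z y
    · exact sinkA x z
    · have := claim_cyc h3 hF hAC hBC.symm hAB.symm hAn hCn hBn hA hC hB (eACB ▸ hW)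
        (fun _ => hpACB) z y x cA cC cB
      rwa [eACB] at this
    · exact sinkA x z
  · push Not at hE
    have no1 : ∀ x ∈ A, ∀ y ∈ C, ∀ w ∈ B, ({x, y, w} : Finset V) ∉ H := fun x hx y hy w hw h =>
      hE x hx w hw y hy (by rw [← perm2]; exact h)
    have no2 : ∀ x ∈ B, ∀ y ∈ A, ∀ w ∈ C, ({x, y, w} : Finset V) ∉ H := fun x hx y hy w hw h =>
      hE y hy x hx w hw (by rw [← perm1]; exact h)
    have no3 : ∀ x ∈ B, ∀ y ∈ C, ∀ w ∈ A, ({x, y, w} : Finset V) ∉ H := fun x hx y hy w hw h =>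
      hE w hw x hx y hy (by rw [perm4] at h; exact h)
    have no4 : ∀ x ∈ C, ∀ y ∈ A, ∀ w ∈ B, ({x, y, w} : Finset V) ∉ H := fun x hx y hy w hw h =>
      hE y hy w hw x hx (by rw [perm3] at h; exact h)
    have no5 : ∀ x ∈ C, ∀ y ∈ B, ∀ w ∈ A, ({x, y, w} : Finset V) ∉ H := fun x hx y hy w hw h =>
      hE w hw y hy x hx (by rw [perm5] at h; exact h)
    have emp : ∀ X Y Z : Finset V, (∀ x ∈ X, ∀ y ∈ Y, ∀ w ∈ Z, ({x, y, w} : Finset V) ∉ H) →
        (Tr X Y Z ∩ H).Nonempty → PairCond H X Y Z := by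
      rintro X Y Z hno ⟨e, he⟩
      exfalso
      rw [mem_inter] at he
      unfold Tr at he
      rw [mem_image] at he
      obtain ⟨⟨t, ht, hte⟩, heH⟩ := he
      simp only [mem_product] at ht
      exact hno _ ht.1 _ ht.2.1 _ ht.2.2 (hte ▸ heH)
    rcases arrow_or hF hAB hA hB with x | x <;> rcases arrow_or hF hBC hB hC with y | y <;>
      rcases arrow_or hF hAC hA hC with z | z
    · exact claim_trans0 h3 hF hAB hBC hAC hAn hBn hCn hA hB hC hW x z y hE cA cB cC
    · exact claim_cyc h3 hF hAB hBC hAC.symm hAn hBn hCn hA hB hC hW (emp _ _ _ hE) x y z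
        cA cB cC
    · have := claim_trans0 h3 hF hAC hBC.symm hAB hAn hCn hBn hA hC hB (eACB ▸ hW) z x y no1
        cA cC cB
      rwa [eACB] at this
    · have := claim_trans0 h3 hF hAC.symm hAB hBC.symm hCn hAn hBn hC hA hB (eCAB ▸ hW) z y x
        no4 cC cA cB
      rwa [eCAB] at this
    · have := claim_trans0 h3 hF hAB.symm hAC hBC hBn hAn hCn hB hA hC (eBAC ▸ hW) x y z
        no2 cB cA cC
      rwa [eBAC] at this
    · have := claim_trans0 h3 hF hBC hAC.symm hAB.symm hBn hCn hAn hB hC hA (eBCA ▸ hW) y x z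
        no3 cB cC cA
      rwa [eBCA] at this
    · have := claim_cyc h3 hF hAC hBC.symm hAB.symm hAn hCn hBn hA hC hB (eACB ▸ hW)
        (emp _ _ _ no1) z y x cA cC cB
      rwa [eACB] at this
    · have := claim_trans0 h3 hF hBC.symm hAB.symm hAC.symm hCn hBn hAn hC hB hA (eCBA ▸ hW) y z x
        no5 cC cB cA
      rwa [eCBA] at this

end Pool.Agent.Helper72_TT
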