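import Mathlib

set_option autoImplicit false
open Finset

namespace Pool.Agent.Helper72_TT

/-- derivative of `K` in `x`. For `x ≤ D` it is `D*x/2`, for `D ≤ x ≤ 9*D` it is
`D*x/2 + 9/32*(x-D)^2`, for `9*D ≤ x` it is `5/18*x^2`. -/
noncomputable def k (D x : ℝ) : ℝ :=
  D * x / 2 + 9 / 32 * (max (x - D) 0) ^ 2 - 1 / 288 * (max (x - 9 * D) 0) ^ 2

noncomputable def K (D x : ℝ) : ℝ :=
  D * x ^ 2 / 4 + 3 / 32 * (max (x - D) 0) ^ 3 - 1 / 864 * (max (x - 9 * D) 0) ^ 3

variable {V : Type} [DecidableEq V]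

/-- no four vertices span four edges -/
def Free (H : Finset (Finset V)) : Prop :=
  ∀ x y z w : V, x ≠ y → x ≠ z → x ≠ w → y ≠ z → y ≠ w → z ≠ w →
    {x, y, z} ∈ H → {x, y, w} ∈ H → {x, z, w} ∈ H → {y, z, w} ∈ H → False

/-- all vertices of `A` have the same link outside `A` -/
def IsMod (H : Finset (Finset V)) (A : Finset V) : Prop :=
  ∀ x ∈ A, ∀ x' ∈ A, ∀ y, y ∉ A → ∀ z, z ∉ A → y ≠ z →
    (({x, y, z} : Finset V) ∈ H → ({x', y, z} : Finset V) ∈ H)

/-- the edges with at least two vertices in `A` and all vertices in `A ∪ N` -/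
def val (H : Finset (Finset V)) (A N : Finset V) : Finset (Finset V) :=
  H.filter fun e => e ⊆ A ∪ N ∧ 2 ≤ (e ∩ A).card

/-- `I` is independent in the links of the vertices of `A` -/
def Ind (H : Finset (Finset V)) (A I : Finset V) : Prop :=
  ∀ x ∈ A, ∀ y ∈ I, ∀ z ∈ I, y ≠ z → ({x, y, z} : Finset V) ∉ H

/-- the bound for the subtree with leaves `A` -/
def Claim (H : Finset (Finset V)) (A : Finset V) : Prop :=
  ∀ (N : Finset V) (D : ℝ), Disjoint A N → 0 ≤ D → D ≤ N.card →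
    (∀ I ⊆ N, Ind H A I → 2 * (I.card : ℝ) ≤ N.card + D) →
    ((val H A N).card : ℝ) ≤ N.card * (A.card : ℝ) ^ 2 / 4 + K D A.card

/-- the transversal triples of `P`, `Q`, `S` -/
def Tr (P Q S : Finset V) : Finset (Finset V) :=
  (P ×ˢ Q ×ˢ S).image fun t => {t.1, t.2.1, t.2.2}

/-- no edge has one vertex in `P` and two vertices in `Q` -/
def Arrow (H : Finset (Finset V)) (P Q : Finset V) : Prop :=
  ∀ x ∈ P, ∀ y ∈ Q, ∀ z ∈ Q, y ≠ z → ({x, y, z} : Finset V) ∉ H

open scoped Classical in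
/-- the vertices of `N` which form an edge with a pair of `P × Q` -/
noncomputable def Sset (H : Finset (Finset V)) (P Q N : Finset V) : Finset V :=
  N.filter fun z => ∃ x ∈ P, ∃ y ∈ Q, ({x, y, z} : Finset V) ∈ H

end Pool.Agent.Helper72_TT
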