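import Pool.Agent.Helper72_TT.Bin
import Pool.Agent.Helper72_TT.Ana

set_option autoImplicit false
open Finset

namespace Pool.Agent.Helper72_TT

variable {V : Type} [DecidableEq V] {H : Finset (Finset V)}

theorem ind_sub {A B I : Finset V} (hA : IsMod H A) (hI : Disjoint A I) (hBA : B ⊆ A)
    (hB : B.Nonempty) (h : Ind H B I) : Ind H A I := by
  obtain ⟨b, hb⟩ := hB
  exact ind_of hA hI ⟨b, mem_inter.2 ⟨hb, hBA hb⟩⟩ h

/-- the state of the child `P` when `Q` is added to the outside -/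
theorem state_bound (hF : Free H) {P Q N A : Finset V} {D : ℝ} (hPQ : Disjoint P Q)
    (hP : IsMod H P) (hQ : IsMod H Q) (hA : IsMod H A)
    (hAN : Disjoint A N) (hPA : P ⊆ A) (hQA : Q ⊆ A) (hPn : P.Nonempty) (hQn : Q.Nonempty)
    (hD : 0 ≤ D) (hDN : D ≤ N.card)
    (hI : ∀ I ⊆ N, Ind H A I → 2 * (I.card : ℝ) ≤ N.card + D) (cP : Claim H P) :
    2 * ((Sset H P Q N).card : ℝ) - N.card ≤ D ∧
    ((val H P (N ∪ Q)).card : ℝ) ≤ (N.card + Q.card) * (P.card : ℝ) ^ 2 / 4 +
      K (max 0 (max (D - Q.card) (Q.card +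
        min D (-(2 * ((Sset H P Q N).card : ℝ) - N.card))))) P.card := by
  classical
  have hN : Disjoint (P ∪ Q) N := hAN.mono_left (union_subset hPA hQA)
  have hNQ : Disjoint N Q := (disjoint_left.2 fun a ha hb =>
    disjoint_left.1 hN (mem_union_right _ hb) ha)
  have hPNQ : Disjoint P (N ∪ Q) := disjoint_union_right.2
    ⟨hN.mono_left subset_union_left, hPQ⟩
  have hc : ((N ∪ Q).card : ℝ) = N.card + Q.card := by
    rw [card_union_of_disjoint hNQ]; push_cast; ring
  have hS0 : (0 : ℝ) ≤ (Sset H P Q N).card := Nat.cast_nonneg _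
  have hQ0 : (0 : ℝ) ≤ Q.card := Nat.cast_nonneg _
  constructor
  · have := hI (Sset H P Q N) (filter_subset _ _)
      (Sset_ind hF hPQ hN hP hQ hA hAN hPA hQA hPn hQn)
    linarith
  · have h := cP (N ∪ Q) _ hPNQ (le_max_left 0 _) ?_
      (ind_bound hPQ hN hP hQ hA hAN hPA hPn hI)
    · rw [hc] at h
      exact h
    · rw [hc]
      refine max_le (by positivity) (max_le (by linarith) ?_)
      have : min D (-(2 * ((Sset H P Q N).card : ℝ) - N.card)) ≤ D := min_le_left _ _
      linarith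

theorem claim_two_aux (h3 : ∀ e ∈ H, e.card = 3) (hF : Free H) {P Q : Finset V}
    (hPQ : Disjoint P Q) (hPn : P.Nonempty) (hQn : Q.Nonempty) (hP : IsMod H P)
    (hQ : IsMod H Q) (hA : IsMod H (P ∪ Q)) (cP : Claim H P) (cQ : Claim H Q)
    (hAr : Arrow H P Q) : Claim H (P ∪ Q) := by
  classical
  intro N D hAN hD hDN hI
  have hN : Disjoint (P ∪ Q) N := hAN
  have hc : ((P ∪ Q).card : ℝ) = P.card + Q.card := by
    rw [card_union_of_disjoint hPQ]; push_cast; ring
  have h1 := card_le_card (val_two_subset h3 hPQ hN hAr)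
  have h2 : ((val H P (N ∪ Q) ∪ val H Q N ∪ Tr P Q (Sset H P Q N)).card : ℝ) ≤
      (val H P (N ∪ Q)).card + (val H Q N).card + (P.card * Q.card * (Sset H P Q N).card : ℝ) := by
    have a1 := card_union_le (val H P (N ∪ Q) ∪ val H Q N) (Tr P Q (Sset H P Q N))
    have a2 := card_union_le (val H P (N ∪ Q)) (val H Q N)
    have a3 := card_Tr_le P Q (Sset H P Q N)
    have : (val H P (N ∪ Q) ∪ val H Q N ∪ Tr P Q (Sset H P Q N)).card ≤
      (val H P (N ∪ Q)).card + (val H Q N).card + P.card * Q.card * (Sset H P Q N).card := by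
      omega
    exact_mod_cast this
  obtain ⟨b1, b2⟩ := state_bound hF hPQ hP hQ hA hAN subset_union_left subset_union_right
    hPn hQn hD hDN hI cP
  have b3 := cQ N D (hN.mono_left subset_union_right) hD hDN
    (fun I hIN hInd => hI I hIN (ind_sub hA (hAN.mono_right hIN) subset_union_right hQn hInd))
  have h4 : ((val H (P ∪ Q) N).card : ℝ) ≤
      (val H P (N ∪ Q)).card + (val H Q N).card + (P.card * Q.card * (Sset H P Q N).card : ℝ) :=
    le_trans (by exact_mod_cast h1) h2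
  have h5 := step_two (p := P.card) (q := Q.card) (D := D)
    (s := 2 * ((Sset H P Q N).card : ℝ) - N.card) (Nat.cast_nonneg _) (Nat.cast_nonneg _) hD b1
  rw [hc]
  nlinarith [h4, b2, b3, h5]

theorem claim_two (h3 : ∀ e ∈ H, e.card = 3) (hF : Free H) {P Q : Finset V}
    (hPQ : Disjoint P Q) (hPn : P.Nonempty) (hQn : Q.Nonempty) (hP : IsMod H P)
    (hQ : IsMod H Q) (hA : IsMod H (P ∪ Q)) (cP : Claim H P) (cQ : Claim H Q) :
    Claim H (P ∪ Q) := by
  rcases arrow_or hF hPQ hP hQ with h | h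
  · exact claim_two_aux h3 hF hPQ hPn hQn hP hQ hA cP cQ h
  · rw [union_comm] at hA ⊢
    exact claim_two_aux h3 hF hPQ.symm hQn hPn hQ hP hA cQ cP h

end Pool.Agent.Helper72_TT
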