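import Pool.Agent.Helper72_TT.Step

set_option autoImplicit false
open Finset

namespace Pool.Agent.Helper72_TT

variable {V : Type} [DecidableEq V] {H : Finset (Finset V)}

/-- a vertex outside forms an edge with all or no pairs of vertices in different sets -/
def PairCond (H : Finset (Finset V)) (A B C : Finset V) : Prop :=
  ∀ z, z ∉ A ∪ B ∪ C → ∀ x ∈ A, ∀ y ∈ B, ∀ w ∈ C,
    (({x, y, z} : Finset V) ∈ H ↔ ({y, w, z} : Finset V) ∈ H) ∧
    (({y, w, z} : Finset V) ∈ H ↔ ({x, w, z} : Finset V) ∈ H)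

theorem pair_rot {A B C : Finset V} (h : PairCond H A B C) : PairCond H B C A := by
  intro z hz x hx y hy w hw
  have hz' : z ∉ A ∪ B ∪ C := by
    simp only [mem_union] at hz ⊢; tauto
  have := h z hz' w hw x hx y hy
  -- this : {w,x,z} ↔ {x,y,z} , {x,y,z} ↔ {w,y,z}
  rw [perm1 y w z, perm1 x w z]
  exact ⟨this.2, this.2.symm.trans this.1.symm⟩

theorem pair_swap {A B C : Finset V} (h : PairCond H A B C) : PairCond H B A C := by
  intro z hz x hx y hy w hw
  have hz' : z ∉ A ∪ B ∪ C := by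
    simp only [mem_union] at hz ⊢; tauto
  have := h z hz' y hy x hx w hw
  -- this : {y,x,z} ↔ {x,w,z}, {x,w,z} ↔ {y,w,z}
  rw [perm1 x y z]
  exact ⟨this.1.trans this.2, this.2.symm⟩

theorem mod_union {X Y Z : Finset V} (hXY : Disjoint X Y) (hXZ : Disjoint X Z)
    (hYZ : Disjoint Y Z) (hX : IsMod H X) (hY : IsMod H Y)
    (hW : IsMod H (X ∪ Y ∪ Z)) (hp : PairCond H X Y Z) (a1 : Arrow H X Z) (a2 : Arrow H Y Z) :
    IsMod H (X ∪ Y) := by
  have aux : ∀ x ∈ X ∪ Y, ∀ y ∈ Z, ∀ z ∈ Z, y ≠ z → ({x, y, z} : Finset V) ∉ H := by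
    intro x hx y hy z hz hyz
    rcases mem_union.1 hx with h | h
    · exact a1 x h y hy z hz hyz
    · exact a2 x h y hy z hz hyz
  have aux2 : ∀ x ∈ X ∪ Y, ∀ x' ∈ X ∪ Y, ∀ y ∈ Z, ∀ z, z ∉ X ∪ Y ∪ Z →
      ({x, y, z} : Finset V) ∈ H → ({x', y, z} : Finset V) ∈ H := by
    intro x hx x' hx' y hy z hz h
    have hz' : z ∉ X ∧ z ∉ Y ∧ z ∉ Z := by
      simp only [mem_union] at hz; tauto
    have hyz : y ≠ z := fun e => hz'.2.2 (e ▸ hy)
    have hyX : y ∉ X := fun e => disjoint_left.1 hXZ e hy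
    have hyY : y ∉ Y := fun e => disjoint_left.1 hYZ e hy
    rcases mem_union.1 hx with h1 | h1 <;> rcases mem_union.1 hx' with h2 | h2
    · exact hX x h1 x' h2 y hyX z hz'.1 hyz h
    · exact (hp z hz x h1 x' h2 y hy).2.2 h
    · exact (hp z hz x' h2 x h1 y hy).2.1 h
    · exact hY x h1 x' h2 y hyY z hz'.2.1 hyz h
  intro x hx x' hx' y hy z hz hyz h
  by_cases hyZ : y ∈ Z
  · by_cases hzZ : z ∈ Z
    · exact absurd h (aux x hx y hyZ z hzZ hyz)
    · refine aux2 x hx x' hx' y hyZ z ?_ h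
      simp only [mem_union] at hz ⊢; tauto
  · by_cases hzZ : z ∈ Z
    · rw [perm2] at h ⊢
      refine aux2 x hx x' hx' z hzZ y ?_ h
      simp only [mem_union] at hy ⊢; tauto
    · refine hW x (mem_union_left _ hx) x' (mem_union_left _ hx') y ?_ z ?_ hyz h
      · simp only [mem_union] at hy ⊢; tauto
      · simp only [mem_union] at hz ⊢; tauto

/-- the transitive case -/
theorem claim_sink (h3 : ∀ e ∈ H, e.card = 3) (hF : Free H) {X Y Z : Finset V}
    (hXY : Disjoint X Y) (hXZ : Disjoint X Z) (hYZ : Disjoint Y Z)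
    (hXn : X.Nonempty) (hYn : Y.Nonempty) (hZn : Z.Nonempty)
    (hX : IsMod H X) (hY : IsMod H Y) (hZ : IsMod H Z)
    (hW : IsMod H (X ∪ Y ∪ Z)) (hp : PairCond H X Y Z) (a1 : Arrow H X Z) (a2 : Arrow H Y Z)
    (cX : Claim H X) (cY : Claim H Y) (cZ : Claim H Z) : Claim H (X ∪ Y ∪ Z) := by
  have hm := mod_union hXY hXZ hYZ hX hY hW hp a1 a2
  have c := claim_two h3 hF hXY hXn hYn hX hY hm cX cY
  exact claim_two h3 hF (disjoint_union_left.2 ⟨hXZ, hYZ⟩) (hXn.mono subset_union_left) hZn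
    hm hZ hW c cZ

theorem val_three_subset (h3 : ∀ e ∈ H, e.card = 3) {A B C N : Finset V} (hAB : Disjoint A B)
    (hBC : Disjoint B C) (hCA : Disjoint C A) (hN : Disjoint (A ∪ B ∪ C) N)
    (h1 : Arrow H A B) (h2 : Arrow H B C) (h4 : Arrow H C A) :
    val H (A ∪ B ∪ C) N ⊆ val H A (N ∪ B) ∪ val H B (N ∪ C) ∪ val H C (N ∪ A) ∪
      Tr A B (Sset H A B N) ∪ Tr B C (Sset H B C N) ∪ Tr C A (Sset H C A N) ∪
      (Tr A B C ∩ H) := by
  classical
  intro e he
  unfold val at he
  rw [mem_filter] at he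
  obtain ⟨heH, hsub, h5⟩ := he
  have he3 := h3 e heH
  have hABC : Disjoint (A ∪ B) C := disjoint_union_left.2 ⟨hCA.symm, hBC⟩
  have hc := card_split hsub hABC hN
  have hab : (e ∩ (A ∪ B)).card = (e ∩ A).card + (e ∩ B).card := by
    rw [inter_union_distrib_left]
    exact card_union_of_disjoint (hAB.mono inter_subset_right inter_subset_right)
  have habc : (e ∩ (A ∪ B ∪ C)).card = (e ∩ (A ∪ B)).card + (e ∩ C).card := by
    rw [inter_union_distrib_left]
    exact card_union_of_disjoint (hABC.mono inter_subset_right inter_subset_right)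
  rw [hab] at hc habc
  rw [habc] at h5
  rw [he3] at hc
  have hAN : Disjoint A N := hN.mono_left (subset_union_left.trans subset_union_left)
  have hBN : Disjoint B N := hN.mono_left (subset_union_right.trans subset_union_left)
  have hCN : Disjoint C N := hN.mono_left subset_union_right
  have zero_not : ∀ X : Finset V, (e ∩ X).card = 0 → ∀ a ∈ e, a ∉ X := by
    intro X hX a ha h
    rw [card_eq_zero] at hX
    exact absurd (mem_inter.2 ⟨ha, h⟩) (hX ▸ notMem_empty a)
  -- membership in `val X (N ∪ Y)` when the third set is missed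
  have inval : ∀ X Y Z : Finset V, (∀ a, a ∈ A ∪ B ∪ C ∪ N → a ∈ X ∨ a ∈ Y ∨ a ∈ Z ∨ a ∈ N) →
      2 ≤ (e ∩ X).card → (e ∩ Z).card = 0 → e ∈ val H X (N ∪ Y) := by
    intro X Y Z hcov hX hZ
    unfold val
    rw [mem_filter]
    refine ⟨heH, ?_, hX⟩
    intro a ha
    have g1 := hcov a (hsub ha)
    have g2 := zero_not Z hZ a ha
    simp only [mem_union]
    tauto
  have cov1 : ∀ a, a ∈ A ∪ B ∪ C ∪ N → a ∈ A ∨ a ∈ B ∨ a ∈ C ∨ a ∈ N := by
    intro a ha; simp only [mem_union] at ha; tauto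
  have cov2 : ∀ a, a ∈ A ∪ B ∪ C ∪ N → a ∈ B ∨ a ∈ C ∨ a ∈ A ∨ a ∈ N := by
    intro a ha; simp only [mem_union] at ha; tauto
  have cov3 : ∀ a, a ∈ A ∪ B ∪ C ∪ N → a ∈ C ∨ a ∈ A ∨ a ∈ B ∨ a ∈ N := by
    intro a ha; simp only [mem_union] at ha; tauto
  have intr : ∀ X Y Z : Finset V, (∀ a, a ∈ A ∪ B ∪ C ∪ N → a ∈ X ∨ a ∈ Y ∨ a ∈ Z ∨ a ∈ N) →
      (e ∩ X).card = 1 → (e ∩ Y).card = 1 → (e ∩ N).card = 1 → (e ∩ Z).card = 0 →
      e ∈ Tr X Y (Sset H X Y N) := by
    intro X Y Z hcov hX hY hN' hZ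
    have hs : e ⊆ X ∪ Y ∪ N := by
      intro a ha
      have g1 := hcov a (hsub ha)
      have g2 := zero_not Z hZ a ha
      simp only [mem_union]
      tauto
    obtain ⟨x, hx, y, hy, z, hz, hxyz⟩ := eq_of_one hs hX hY hN'
    unfold Tr
    rw [mem_image]
    refine ⟨(x, y, z), ?_, hxyz.symm⟩
    simp only [mem_product]
    refine ⟨hx, hy, ?_⟩
    unfold Sset
    rw [mem_filter]
    exact ⟨hz, x, hx, y, hy, hxyz ▸ heH⟩
  have n1 : ¬ ((e ∩ A).card = 1 ∧ (e ∩ B).card = 2) := fun h =>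
    not_one_two h1 heH he3 hAB h.1 h.2
  have n2 : ¬ ((e ∩ B).card = 1 ∧ (e ∩ C).card = 2) := fun h =>
    not_one_two h2 heH he3 hBC h.1 h.2
  have n3 : ¬ ((e ∩ C).card = 1 ∧ (e ∩ A).card = 2) := fun h =>
    not_one_two h4 heH he3 hCA h.1 h.2
  simp only [mem_union]
  by_cases hA2 : 2 ≤ (e ∩ A).card
  · left; left; left; left; left; left
    exact inval A B C cov1 hA2 (by omega)
  · by_cases hB2 : 2 ≤ (e ∩ B).card
    · left; left; left; left; left; right
      exact inval B C A cov2 hB2 (by omega)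
    · by_cases hC2 : 2 ≤ (e ∩ C).card
      · left; left; left; left; right
        exact inval C A B cov3 hC2 (by omega)
      · by_cases hNc : (e ∩ N).card = 0
        · right
          rw [mem_inter]
          refine ⟨?_, heH⟩
          have hs : e ⊆ A ∪ B ∪ C := by
            intro a ha
            have g1 := hsub ha
            have g2 := zero_not N hNc a ha
            simp only [mem_union] at g1 ⊢
            tauto
          obtain ⟨x, hx, y, hy, z, hz, hxyz⟩ := eq_of_one (P := A) (Q := B) (N := C) hs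
            (by omega) (by omega) (by omega)
          unfold Tr
          rw [mem_image]
          exact ⟨(x, y, z), by simp only [mem_product]; exact ⟨hx, hy, hz⟩, hxyz.symm⟩
        · by_cases hA0 : (e ∩ A).card = 0
          · left; left; right
            exact intr B C A cov2 (by omega) (by omega) (by omega) (by omega)
          · by_cases hB0 : (e ∩ B).card = 0
            · left; right
              exact intr C A B cov3 (by omega) (by omega) (by omega) (by omega)
            · left; left; left; right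
              exact intr A B C cov1 (by omega) (by omega) (by omega) (by omega)

end Pool.Agent.Helper72_TT
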